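import Pool.Agent.U761.UX.RM

set_option autoImplicit false

/-!
U761.UX: the bad sets.
-/

namespace Pool.Agent.U761.UX

open Filter Topology MeasureTheory Complex
open Pool.Agent.Q97.UM Pool.Agent.Q247.UM Pool.Agent.Q241.UM Pool.Agent.U761.SZ

noncomputable section

theorem Fl_cont (β : ℕ → ℝ) (J : Finset ℕ) : Continuous (Fl β J) := by
  unfold Fl
  fun_prop

theorem qt_sq {μ : ℝ} {β : ℕ → ℝ} {J : Finset ℕ} {h : ℝ} (hJ : ∀ p ∈ J, p.Prime) :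
    ∑ p ∈ J, ‖qt μ β J h p‖ ^ 2 / p = μ ^ 2 * ∑ p ∈ J, β p ^ 2 := by
  rw [Finset.mul_sum]
  refine Finset.sum_congr rfl fun p hp => ?_
  have hp0 : (0 : ℝ) < p := by exact_mod_cast (hJ p hp).pos
  rw [qt_norm hp (hJ p hp), sq_abs, mul_pow, mul_pow, Real.sq_sqrt hp0.le]
  field_simp

/-- the two bad sets of a shift -/
theorem bad_main : ∃ θ δ C : ℝ, 0 < θ ∧ θ ≤ 1 / 16 ∧ 0 < δ ∧ δ ≤ 1 / 16 ∧ 0 ≤ C ∧ ∀ᶠ T : ℝ in atTop,
    ∀ (h μ ϑ S V S' ε : ℝ) (β : ℕ → ℝ) (J : Finset ℕ) (y Y K k : ℕ), |h| ≤ T / 2 → |μ| ≤ 4 → 1 ≤ y → y ≤ Y → Y ≤ ⌊T ^ δ⌋₊ →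
    1 ≤ K → k ≤ K → ((Y ^ K : ℕ) : ℝ) ≤ T ^ θ → (∀ p ∈ J, p.Prime ∧ y < p ∧ p ≤ Y) → 0 ≤ ϑ → ϑ ≤ 1 →
    (∀ p ∈ J, 1 - ϑ ≤ Real.pi * (Real.sqrt p * β p) ∧ Real.pi * (Real.sqrt p * β p) ≤ 1) →
    (∑ p ∈ (Finset.Icc 1 ⌊T ^ δ⌋₊).filter (fun p => p.Prime ∧ y < p ∧ p ∉ J), (1 : ℝ) / p ≤ S) → (∑ p ∈ J, (1 : ℝ) / p ≤ V) →
    (∑ p ∈ (Finset.Icc 1 y).filter Nat.Prime, ‖(p : ℂ) ^ (-(h * I)) - 1‖ ^ 2 / p ≤ S') → 0 < ε →
    ∃ B1 B2 : Set ℝ, MeasurableSet B1 ∧ MeasurableSet B2 ∧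
      (volume (B1 ∩ Set.Ioc T (2 * T))).toReal ≤ 2 * T * (k.factorial * (μ ^ 2 * ∑ p ∈ J, β p ^ 2) ^ k) / ((K + 1 : ℝ) / 8) ^ (2 * k) ∧
      ∫ t in B2 ∩ Set.Ioc T (2 * T), Real.exp (2 * μ * Fl β J (t + h)) ≤
        4 * (C * (2 + S + S' + ϑ ^ 2 * V + (ϑ * V) ^ 2)) / ε ^ 2 * (T * Real.exp (μ ^ 2 * ∑ p ∈ J, β p ^ 2)) ∧
      ∀ t, t ∉ B1 → t ∉ B2 → |aS (t + h) - (LE y (t + h)).im - Real.pi * Fl β J (t + h)| ≤ ε ∧ ‖LE y (t + h) - LE y t‖ ≤ ε := by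
  classical
  obtain ⟨θ, δ, C, hθ, hθ1, hδ, hδ1, hC, hT⟩ := rel_main
  refine ⟨θ, δ, C, hθ, hθ1, hδ, hδ1, hC, ?_⟩
  filter_upwards [hT, eventually_ge_atTop 16] with T hTT hT16
  intro h μ ϑ S V S' ε β J y Y K k hh hμ hy hyY hYX hK hkK hYK hJ hϑ0 hϑ1 hw hS hV hS' hε
  obtain ⟨⟨i1, e1⟩, ⟨i2, e2⟩⟩ := hTT h μ ϑ S V S' β J y Y K hh hμ hy hyY hYX hK hYK hJ hϑ0 hϑ1 hw hS hV hS'
  have hT0 : 0 < T := by linarith
  have hT1 : 1 ≤ T := by linarith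
  have hJp : ∀ p ∈ J, p.Prime := fun p hp => (hJ p hp).1
  rw [qt_sq hJp] at e1 e2
  obtain ⟨q, hqd⟩ : ∃ q : ℕ → ℂ, q = qt μ β J h := ⟨_, rfl⟩
  rw [← hqd] at i1 e1 i2 e2
  have hq0 : ∀ p, p ∉ J → q p = 0 := fun p hp => by rw [hqd]; unfold qt; rw [if_neg hp]
  have hq : ∀ m, q m ≠ 0 → m.Prime ∧ m ∈ J := by
    intro m hm
    by_cases h : m ∈ J
    · exact ⟨hJp m h, h⟩
    · exact absurd (hq0 m h) hm
  have hqY : ∀ m, Y < m → q m = 0 := by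
    intro m hm
    refine hq0 m fun h => ?_
    exact absurd (hJ m h).2.2 (not_le.2 hm)
  have hY1 : 1 ≤ Y := hy.trans hyY
  obtain ⟨ρ, hρ⟩ : ∃ ρ : ℝ, ρ = T * Real.exp (μ ^ 2 * ∑ p ∈ J, β p ^ 2) := ⟨_, rfl⟩
  have hρ0 : 0 < ρ := by rw [hρ]; positivity
  rw [← hρ] at e1 e2 ⊢
  have hc : Continuous (dp Y q) := (Pool.Agent.Q84.UM.t_DPM.2.2 _ _ 0).2
  obtain ⟨E, hE⟩ : ∃ E : ℝ → ℂ, E = dp (Y ^ K) (te q K) := ⟨_, rfl⟩
  have hEc : Continuous E := by rw [hE]; exact (Pool.Agent.Q84.UM.t_DPM.2.2 _ _ 0).2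
  rw [← hE] at i1 e1 i2 e2
  obtain ⟨D, hD⟩ : ∃ D : ℝ → ℝ, D = fun t => aS (t + h) - (LE y (t + h)).im - Real.pi * Fl β J (t + h) := ⟨_, rfl⟩
  obtain ⟨G, hG⟩ : ∃ G : ℝ → ℂ, G = fun t => LE y (t + h) - LE y t := ⟨_, rfl⟩
  have hDm : Measurable D := by
    rw [hD]
    exact ((aS_meas.comp (measurable_id.add_const h)).sub (Complex.measurable_im.comp ((LE_cont y).measurable.comp (measurable_id.add_const h)))).sub
      (((Fl_cont β J).measurable.comp (measurable_id.add_const h)).const_mul Real.pi)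
  have hGm : Measurable G := by
    rw [hG]
    exact ((LE_cont y).measurable.comp (measurable_id.add_const h)).sub (LE_cont y).measurable
  have i1' : IntervalIntegrable (fun t => D t ^ 2 * ‖E t‖ ^ 2) volume T (2 * T) := by rw [hD]; exact i1
  have i2' : IntervalIntegrable (fun t => ‖G t‖ ^ 2 * ‖E t‖ ^ 2) volume T (2 * T) := by rw [hG]; exact i2
  have e1' : ∫ t in T..(2 * T), D t ^ 2 * ‖E t‖ ^ 2 ≤ C * (1 + S + ϑ ^ 2 * V + (ϑ * V) ^ 2) * ρ := by rw [hD]; exact e1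
  have e2' : ∫ t in T..(2 * T), ‖G t‖ ^ 2 * ‖E t‖ ^ 2 ≤ C * (1 + S') * ρ := by rw [hG]; exact e2
  obtain ⟨B1, hB1⟩ : ∃ B1 : Set ℝ, B1 = {t : ℝ | (K + 1 : ℝ) / 8 < ‖dp Y q t‖} := ⟨_, rfl⟩
  obtain ⟨B2, hB2⟩ : ∃ B2 : Set ℝ, B2 = {t : ℝ | ‖dp Y q t‖ ≤ (K + 1 : ℝ) / 8 ∧ (ε < |D t| ∨ ε < ‖G t‖)} := ⟨_, rfl⟩
  have hB1m : MeasurableSet B1 := by
    rw [hB1]
    exact measurableSet_lt measurable_const hc.norm.measurable
  have hB2m : MeasurableSet B2 := by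
    rw [hB2]
    exact (measurableSet_le hc.norm.measurable measurable_const).inter
      ((measurableSet_lt measurable_const hDm.abs).union (measurableSet_lt measurable_const hGm.norm))
  have hTT2 : T ≤ 2 * T := by linarith
  refine ⟨B1, B2, hB1m, hB2m, ?_, ?_, ?_⟩
  · -- the tail
    have hlen : ((Y ^ k : ℕ) : ℝ) ≤ T ^ (1 / 4 : ℝ) := by
      have h1 : ((Y ^ k : ℕ) : ℝ) ≤ ((Y ^ K : ℕ) : ℝ) := by exact_mod_cast Nat.pow_le_pow_right hY1 hkK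
      exact (h1.trans hYK).trans (Real.rpow_le_rpow_of_exponent_le hT1 (by linarith))
    have h1 := dp_tail hT16 hq hJp hqY hlen (B := (K + 1 : ℝ) / 8) (by positivity)
    have e3 : B1 ∩ Set.Ioc T (2 * T) = {t : ℝ | T < t ∧ t ≤ 2 * T ∧ (K + 1 : ℝ) / 8 < ‖dp Y q t‖} := by
      rw [hB1]
      ext t
      simp only [Set.mem_inter_iff, Set.mem_ofPred_eq, Set.mem_Ioc]
      tauto
    rw [e3]
    have e4 : ∑ p ∈ J, ‖q p‖ ^ 2 / (p : ℝ) = μ ^ 2 * ∑ p ∈ J, β p ^ 2 := by rw [hqd]; exact qt_sq hJp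
    rw [e4] at h1
    exact h1
  · -- the tilted measure
    have hlow : ∀ t ∈ B2 ∩ Set.Ioc T (2 * T), Real.exp (2 * μ * Fl β J (t + h)) ≤ 4 / ε ^ 2 * (D t ^ 2 * ‖E t‖ ^ 2 + ‖G t‖ ^ 2 * ‖E t‖ ^ 2) := by
      intro t ht
      rw [hB2] at ht
      obtain ⟨⟨t1, t2⟩, -⟩ := ht
      have h1 : Real.exp (2 * (dp Y q t).re) ≤ 4 * ‖∑ r ∈ Finset.range (K + 1), dp Y q t ^ r / (r.factorial : ℂ)‖ ^ 2 :=
        texp_low hK (by linarith)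
      rw [← Pool.Agent.Q14.UM.dp_te Pool.Agent.Q84.UM.t_DPM q Y K hY1 hqY t, ← hE] at h1
      have h2 : (dp Y q t).re = μ * Fl β J (t + h) := by
        rw [hqd]
        exact dp_qt μ β (fun p hp => ⟨(hJ p hp).1, (hJ p hp).2.2⟩) h t
      rw [h2] at h1
      have h3 : 2 * μ * Fl β J (t + h) = 2 * (μ * Fl β J (t + h)) := by ring
      rw [h3]
      refine h1.trans ?_
      have h4 : ε ^ 2 ≤ D t ^ 2 + ‖G t‖ ^ 2 := by
        rcases t2 with t2 | t2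
        · have := pow_le_pow_left₀ hε.le t2.le 2
          rw [sq_abs] at this
          have h5 := sq_nonneg ‖G t‖
          linarith
        · have := pow_le_pow_left₀ hε.le t2.le 2
          have h5 := sq_nonneg (D t)
          linarith
      have h5 : 0 ≤ ‖E t‖ ^ 2 := sq_nonneg _
      have h6 := mul_le_mul_of_nonneg_right h4 h5
      calc 4 * ‖E t‖ ^ 2 = 4 / ε ^ 2 * (ε ^ 2 * ‖E t‖ ^ 2) := by field_simp
        _ ≤ 4 / ε ^ 2 * ((D t ^ 2 + ‖G t‖ ^ 2) * ‖E t‖ ^ 2) := mul_le_mul_of_nonneg_left h6 (by positivity)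
        _ = _ := by ring
    have hR : IntegrableOn (fun t => 4 / ε ^ 2 * (D t ^ 2 * ‖E t‖ ^ 2 + ‖G t‖ ^ 2 * ‖E t‖ ^ 2)) (Set.Ioc T (2 * T)) := by
      have h1 := (i1'.add i2').const_mul (4 / ε ^ 2)
      exact (intervalIntegrable_iff_integrableOn_Ioc_of_le hTT2).1 h1
    have hL : IntegrableOn (fun t => Real.exp (2 * μ * Fl β J (t + h))) (Set.Ioc T (2 * T)) := by
      have : Continuous fun t => Real.exp (2 * μ * Fl β J (t + h)) := by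
        have h1 := Fl_cont β J
        fun_prop
      exact this.integrableOn_Ioc
    have hsub : B2 ∩ Set.Ioc T (2 * T) ⊆ Set.Ioc T (2 * T) := Set.inter_subset_right
    have h1 := setIntegral_mono_on (hL.mono_set hsub) (hR.mono_set hsub) (hB2m.inter measurableSet_Ioc) hlow
    have h2 : ∫ t in B2 ∩ Set.Ioc T (2 * T), 4 / ε ^ 2 * (D t ^ 2 * ‖E t‖ ^ 2 + ‖G t‖ ^ 2 * ‖E t‖ ^ 2) ≤
        ∫ t in Set.Ioc T (2 * T), 4 / ε ^ 2 * (D t ^ 2 * ‖E t‖ ^ 2 + ‖G t‖ ^ 2 * ‖E t‖ ^ 2) :=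
      setIntegral_mono_set hR (Eventually.of_forall fun t => by
        show (0 : ℝ) ≤ _
        positivity) (Eventually.of_forall hsub)
    refine h1.trans (h2.trans ?_)
    rw [← intervalIntegral.integral_of_le hTT2, intervalIntegral.integral_const_mul, intervalIntegral.integral_add i1' i2']
    have h3 : (∫ t in T..(2 * T), D t ^ 2 * ‖E t‖ ^ 2) + (∫ t in T..(2 * T), ‖G t‖ ^ 2 * ‖E t‖ ^ 2) ≤
        C * (2 + S + S' + ϑ ^ 2 * V + (ϑ * V) ^ 2) * ρ := by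
      refine (add_le_add e1' e2').trans (le_of_eq ?_)
      ring
    calc 4 / ε ^ 2 * ((∫ t in T..(2 * T), D t ^ 2 * ‖E t‖ ^ 2) + (∫ t in T..(2 * T), ‖G t‖ ^ 2 * ‖E t‖ ^ 2)) ≤
        4 / ε ^ 2 * (C * (2 + S + S' + ϑ ^ 2 * V + (ϑ * V) ^ 2) * ρ) := mul_le_mul_of_nonneg_left h3 (by positivity)
      _ = _ := by ring
  · intro t t1 t2
    rw [hB1] at t1
    rw [hB2] at t2
    simp only [Set.mem_ofPred_eq, not_lt] at t1
    simp only [Set.mem_ofPred_eq, not_and, not_or, not_lt] at t2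
    have h3 := t2 t1
    rw [hD, hG] at h3
    exact h3

/-- the argument minus the small primes: second moment -/
theorem zb_main : ∃ θ δ C : ℝ, 0 < θ ∧ 0 < δ ∧ δ ≤ 1 / 16 ∧ 0 ≤ C ∧ ∀ᶠ T : ℝ in atTop,
    ∀ (S ε : ℝ) (y : ℕ), 1 ≤ y → y ≤ ⌊T ^ δ⌋₊ → (y : ℝ) ≤ T ^ θ →
    (∑ p ∈ (Finset.Icc 1 ⌊T ^ δ⌋₊).filter (fun p => p.Prime ∧ y < p ∧ p ∉ (∅ : Finset ℕ)), (1 : ℝ) / p ≤ S) → 0 < ε →
    (volume ({t : ℝ | ε < |aS t - (LE y t).im|} ∩ Set.Ioc T (2 * T))).toReal ≤ C * (1 + S) / ε ^ 2 * T := by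
  classical
  obtain ⟨θ, δ, C, hθ, hθ1, hδ, hδ1, hC, hT⟩ := rel_main
  refine ⟨θ, δ, C, hθ, hδ, hδ1, hC, ?_⟩
  filter_upwards [hT, eventually_ge_atTop 16] with T hTT hT16
  intro S ε y hy hyX hyθ hS hε
  have hT0 : 0 < T := by linarith
  obtain ⟨⟨i1, e1⟩, -⟩ := hTT 0 0 0 S 0 (∑ p ∈ (Finset.Icc 1 y).filter Nat.Prime, ‖(p : ℂ) ^ (-(((0 : ℝ) : ℂ) * I)) - 1‖ ^ 2 / p)
    (fun _ => 0) ∅ y y 1 (by rw [abs_zero]; linarith) (by norm_num) hy le_rfl hyX le_rfl (by rw [pow_one]; exact hyθ)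
    (fun p hp => absurd hp (Finset.notMem_empty p)) le_rfl zero_le_one (fun p hp => absurd hp (Finset.notMem_empty p)) hS (by simp) le_rfl
  have hq0 : ∀ n, qt 0 (fun _ => 0) ∅ 0 n = 0 := fun n => by unfold qt; rw [if_neg (Finset.notMem_empty n)]
  have hd0 : ∀ t, dp y (qt 0 (fun _ => 0) ∅ 0) t = 0 := by
    intro t
    unfold dp
    exact Finset.sum_eq_zero fun n _ => by rw [hq0, zero_mul]
  have hd1 : ∀ t, dp (y ^ 1) (te (qt 0 (fun _ => 0) ∅ 0) 1) t = 1 := by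
    intro t
    rw [Pool.Agent.Q14.UM.dp_te Pool.Agent.Q84.UM.t_DPM _ y 1 hy (fun n _ => hq0 n) t, hd0, Finset.sum_range_succ, Finset.sum_range_one]
    simp
  have hf : ∀ t, (aS (t + 0) - (LE y (t + 0)).im - Real.pi * Fl (fun _ => 0) ∅ (t + 0)) ^ 2 *
      ‖dp (y ^ 1) (te (qt 0 (fun _ => 0) ∅ 0) 1) t‖ ^ 2 = (aS t - (LE y t).im) ^ 2 := by
    intro t
    rw [hd1]
    unfold Fl
    simp
  simp only [hf] at i1 e1
  rw [Finset.sum_empty, Real.exp_zero] at e1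
  have hDm : Measurable fun t => aS t - (LE y t).im := aS_meas.sub (Complex.measurable_im.comp (LE_cont y).measurable)
  obtain ⟨E, hE⟩ : ∃ E : Set ℝ, E = {t : ℝ | ε < |aS t - (LE y t).im|} ∩ Set.Ioc T (2 * T) := ⟨_, rfl⟩
  rw [← hE]
  have hEm : MeasurableSet E := by
    rw [hE]
    exact (measurableSet_lt measurable_const hDm.abs).inter measurableSet_Ioc
  have hEs : E ⊆ Set.Ioc T (2 * T) := by rw [hE]; exact Set.inter_subset_right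
  have hEf : volume E ≠ ⊤ := ((measure_mono hEs).trans_lt (by rw [Real.volume_Ioc]; exact ENNReal.ofReal_lt_top)).ne
  have hTT2 : T ≤ 2 * T := by linarith
  rw [intervalIntegral.integral_of_le hTT2] at e1
  have hi : IntegrableOn (fun t => (aS t - (LE y t).im) ^ 2) (Set.Ioc T (2 * T)) :=
    (intervalIntegrable_iff_integrableOn_Ioc_of_le hTT2).1 i1
  have h3 : ∫ t in E, ε ^ 2 ≤ ∫ t in Set.Ioc T (2 * T), (aS t - (LE y t).im) ^ 2 := by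
    refine le_trans (setIntegral_mono_on (integrableOn_const hEf) (hi.mono_set hEs) hEm fun t ht => ?_)
      (setIntegral_mono_set hi (Eventually.of_forall fun t => sq_nonneg _) (Eventually.of_forall hEs))
    rw [hE] at ht
    rw [← sq_abs (aS t - (LE y t).im)]
    exact pow_le_pow_left₀ hε.le (le_of_lt ht.1) 2
  rw [setIntegral_const, smul_eq_mul, Measure.real] at h3
  rw [div_mul_eq_mul_div, le_div_iff₀ (by positivity)]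
  refine h3.trans (e1.trans (le_of_eq ?_))
  ring

end

end Pool.Agent.U761.UX
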