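import Pool.Agent.R320.JL.Ze
import Pool.Agent.TH850.UV.Gn

set_option autoImplicit false

/-!
U761.UX: the coefficients of the prime field are nonnegative.
-/

namespace Pool.Agent.U761.UX

open Pool.Agent.R320.JL
open Pool.Agent.TH850.UV (ggo ggo_nonneg)

theorem be_nn {l : ℝ} (hl : 0 < l) (n : ℕ) : 0 ≤ be l n := by
  unfold be
  have h1 := ggo_nonneg l n
  have h2 : 0 ≤ ArithmeticFunction.vonMangoldt n := ArithmeticFunction.vonMangoldt_nonneg
  have h3 : 0 ≤ Real.log n := Real.log_natCast_nonneg n
  have hpi := Real.pi_pos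
  positivity

end Pool.Agent.U761.UX
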