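import Pool.Agent.U761.UX.BAD
import Pool.Agent.U761.UX.BeNn
import Pool.Agent.U429.UX.LowU
import Pool.Agent.U761.SZ.WPR

set_option autoImplicit false

/-!
U761.UX: the largest increments of the argument of zeta.
-/

namespace Pool.Agent.U761.UX

open Filter Topology MeasureTheory Complex
open Pool.Agent.Q97.UM Pool.Agent.Q247.UM Pool.Agent.Q241.UM Pool.Agent.U761.SZ
open Pool.Agent.Y743.CL (XK)
open Pool.Agent.R320.JL (be)
open Pool.Agent.U403.Max (PT PT_univ PT_real fld vI PI XK_mono XK_log sum_inv be_prime)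

noncomputable section

theorem PT_set {T : ℝ} (hT : 0 < T) {S : Set ℝ} (hS : MeasurableSet S) (f : ℝ → ℝ) :
    ∫ t in S, f t ∂(PT T) = (∫ t in S ∩ Set.Ioc T (2 * T), f t) / T := by
  unfold PT
  rw [Measure.restrict_smul, integral_smul_measure, Measure.restrict_restrict hS, ENNReal.toReal_inv,
    ENNReal.toReal_ofReal hT.le, smul_eq_mul]
  rw [div_eq_inv_mul]

/-- the normalised coefficient of a prime -/
theorem be_w {l : ℝ} (hl : 0 < l) {p : ℕ} (hp : p.Prime) : Real.pi * (Real.sqrt p * be l p) ≤ 1 ∧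
    (be l p ^ 2 ≤ 1 / (Real.pi ^ 2 * p)) ∧
    ∀ ϑ : ℝ, 1 ≤ l → Real.log p ≤ l / 2 → (1 + Real.log p) / l + 1 / p ≤ ϑ → 1 - 16 * ϑ ≤ Real.pi * (Real.sqrt p * be l p) := by
  obtain ⟨w, hw0, hw1, hw2, hw3⟩ := be_prime hl hp
  have hp0 : (0 : ℝ) < p := by exact_mod_cast hp.pos
  have hpi := Real.pi_pos
  have h1 : (Real.pi * (Real.sqrt p * be l p)) ^ 2 = w ^ 2 := by
    rw [mul_pow, mul_pow, hw2, Real.sq_sqrt hp0.le]
    field_simp
  have h2 : 0 ≤ Real.pi * (Real.sqrt p * be l p) := by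
    have := be_nn hl p
    positivity
  have h3 : Real.pi * (Real.sqrt p * be l p) = w := by
    exact (sq_eq_sq₀ h2 hw0).1 h1
  refine ⟨by rw [h3]; exact hw1, ?_, fun ϑ a b c => by rw [h3]; exact hw3 ϑ a b c⟩
  rw [hw2]
  calc w ^ 2 * (1 / (Real.pi ^ 2 * p)) ≤ 1 * (1 / (Real.pi ^ 2 * p)) :=
        mul_le_mul_of_nonneg_right (pow_le_one₀ hw0 hw1) (by positivity)
    _ = _ := one_mul _

/-- conditions on `q = log r` -/
theorem qcond {e δ0 θ δ θ' δ' C C' C1 S1 ε η : ℝ} (K0 : ℕ) (hK0 : 3 ≤ K0) (hδ0 : 0 < δ0) (hθ : 0 < θ) (hδ : 0 < δ)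
    (hθ' : 0 < θ') (hδ' : 0 < δ') (hC : 0 ≤ C) (hC' : 0 ≤ C') (hC1 : 0 ≤ C1) (hS1 : 0 ≤ S1) (hε : 0 < ε) (hη : 0 < η) :
    ∀ᶠ q : ℝ in atTop, 1 ≤ q ∧ Real.exp (-(q / K0)) ≤ δ ∧ Real.exp (-q) ≤ δ' ∧ Real.exp (-q) ≤ θ' ∧
      2 * (K0 : ℝ) + 1 ≤ θ * Real.exp (q / K0) ∧
      2 * ((2 * K0).factorial * (q + C1) ^ (2 * K0)) * (8 / θ) ^ (4 * K0) ≤ Real.exp q ∧
      4 * (C * (2 + (2 * q + 2 * C1) + S1 + 1 + 1)) / (ε * q) ^ 2 ≤ δ0 ∧
      C' * (1 + (q + C1)) / (ε * q) ^ 2 ≤ η ∧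
      64 * q * Real.exp (-(q / K0)) * (1 + q + C1) ≤ 1 := by
  have hK : (0 : ℝ) < K0 := by exact_mod_cast (by omega : 0 < K0)
  have t0 : Tendsto (fun q : ℝ => q / K0) atTop atTop := tendsto_id.atTop_div_const hK
  have t1 : Tendsto (fun q : ℝ => Real.exp (-(q / K0))) atTop (𝓝 0) :=
    Real.tendsto_exp_neg_atTop_nhds_zero.comp t0
  have t2 : Tendsto (fun q : ℝ => Real.exp (-q)) atTop (𝓝 0) := Real.tendsto_exp_neg_atTop_nhds_zero
  have t3 : Tendsto (fun q : ℝ => Real.exp (q / K0)) atTop atTop := Real.tendsto_exp_atTop.comp t0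
  have t4 : ∀ᶠ q : ℝ in atTop, 2 * ((2 * K0).factorial * (q + C1) ^ (2 * K0)) * (8 / θ) ^ (4 * K0) ≤ Real.exp q := by
    obtain ⟨A, hA⟩ : ∃ A : ℝ, A = 2 * (2 * K0).factorial * (8 / θ) ^ (4 * K0) * Real.exp C1 := ⟨_, rfl⟩
    have h1 := (Real.tendsto_exp_div_pow_atTop (2 * K0)).comp (tendsto_atTop_add_const_right atTop C1 tendsto_id)
    filter_upwards [h1.eventually_ge_atTop A, eventually_ge_atTop 1] with q h2 h3
    simp only [Function.comp_apply, id] at h2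
    have h4 : 0 < q + C1 := by linarith
    rw [le_div_iff₀ (by positivity), Real.exp_add, hA] at h2
    have h5 : 0 < Real.exp C1 := Real.exp_pos _
    have h6 : (2 * ((2 * K0).factorial * (q + C1) ^ (2 * K0)) * (8 / θ) ^ (4 * K0)) * Real.exp C1 ≤ Real.exp q * Real.exp C1 := by
      refine le_trans (le_of_eq ?_) h2
      ring
    exact le_of_mul_le_mul_right h6 h5
  have t5 : ∀ᶠ q : ℝ in atTop, 4 * (C * (2 + (2 * q + 2 * C1) + S1 + 1 + 1)) / (ε * q) ^ 2 ≤ δ0 := by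
    filter_upwards [eventually_ge_atTop 1, eventually_ge_atTop (4 * (C * (6 + 2 * C1 + S1)) / (δ0 * ε ^ 2))] with q h1 h2
    rw [div_le_iff₀ (by positivity)] at h2 ⊢
    have h3 : 4 * (C * (2 + (2 * q + 2 * C1) + S1 + 1 + 1)) ≤ q * (4 * (C * (6 + 2 * C1 + S1))) := by
      have h4 : 2 + (2 * q + 2 * C1) + S1 + 1 + 1 ≤ q * (6 + 2 * C1 + S1) := by nlinarith
      have h5 := mul_le_mul_of_nonneg_left h4 hC
      linarith
    calc _ ≤ q * (4 * (C * (6 + 2 * C1 + S1))) := h3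
      _ ≤ q * (q * (δ0 * ε ^ 2)) := mul_le_mul_of_nonneg_left h2 (by linarith)
      _ = _ := by ring
  have t6 : ∀ᶠ q : ℝ in atTop, C' * (1 + (q + C1)) / (ε * q) ^ 2 ≤ η := by
    filter_upwards [eventually_ge_atTop 1, eventually_ge_atTop (C' * (2 + C1) / (η * ε ^ 2))] with q h1 h2
    rw [div_le_iff₀ (by positivity)] at h2 ⊢
    have h3 : C' * (1 + (q + C1)) ≤ q * (C' * (2 + C1)) := by
      have h4 : 1 + (q + C1) ≤ q * (2 + C1) := by nlinarith
      have h5 := mul_le_mul_of_nonneg_left h4 hC'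
      linarith
    calc _ ≤ q * (C' * (2 + C1)) := h3
      _ ≤ q * (q * (η * ε ^ 2)) := mul_le_mul_of_nonneg_left h2 (by linarith)
      _ = _ := by ring
  have t7 : ∀ᶠ q : ℝ in atTop, 64 * q * Real.exp (-(q / K0)) * (1 + q + C1) ≤ 1 := by
    have h1 := (Real.tendsto_exp_div_pow_atTop 2).comp t0
    filter_upwards [h1.eventually_ge_atTop (64 * K0 ^ 2 * (2 + C1)), eventually_ge_atTop 1] with q h2 h3
    simp only [Function.comp_apply] at h2
    have h4 : 0 < q / K0 := by positivity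
    rw [le_div_iff₀ (by positivity)] at h2
    have h5 : 64 * (K0 : ℝ) ^ 2 * (2 + C1) * (q / K0) ^ 2 = 64 * (2 + C1) * q ^ 2 := by field_simp
    rw [h5] at h2
    have h6 : Real.exp (-(q / K0)) * Real.exp (q / K0) = 1 := by rw [← Real.exp_add]; simp
    have h7 : 64 * q * (1 + q + C1) ≤ Real.exp (q / K0) := by
      refine le_trans ?_ h2
      have h8 : 1 + q + C1 ≤ (2 + C1) * q := by nlinarith [mul_nonneg (by linarith : 0 ≤ 1 + C1) (by linarith : 0 ≤ q - 1)]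
      have h9 := mul_le_mul_of_nonneg_left h8 (by linarith : 0 ≤ 64 * q)
      linarith [show 64 * q * ((2 + C1) * q) = 64 * (2 + C1) * q ^ 2 by ring]
    calc 64 * q * Real.exp (-(q / K0)) * (1 + q + C1) = Real.exp (-(q / K0)) * (64 * q * (1 + q + C1)) := by ring
      _ ≤ Real.exp (-(q / K0)) * Real.exp (q / K0) := mul_le_mul_of_nonneg_left h7 (Real.exp_pos _).le
      _ = 1 := h6
  filter_upwards [eventually_ge_atTop 1, t1.eventually_le_const hδ, t2.eventually_le_const hδ', t2.eventually_le_const hθ',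
    t3.eventually_ge_atTop ((2 * K0 + 1) / θ), t4, t5, t6, t7] with q q1 q2 q3 q4 q5 q6 q7 q8 q9
  refine ⟨q1, q2, q3, q4, ?_, q6, q7, q8, q9⟩
  rw [div_le_iff₀ hθ] at q5
  linarith


/-- the primes outside the block -/
theorem sum_out {T a b c d : ℝ} (hT : 1 ≤ T) (J : Finset ℕ) (hJ : J = PI T b c) {y X : ℕ} (hy : y = XK (Real.exp (-a)) T)
    (hX : X = XK (Real.exp (-d)) T) {A B : ℝ} (hA : ∑ p ∈ PI T a b, (1 : ℝ) / p ≤ A) (hB : ∑ p ∈ PI T c d, (1 : ℝ) / p ≤ B) :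
    ∑ p ∈ (Finset.Icc 1 X).filter (fun p => p.Prime ∧ y < p ∧ p ∉ J), (1 : ℝ) / p ≤ A + B := by
  classical
  have hsub : (Finset.Icc 1 X).filter (fun p => p.Prime ∧ y < p ∧ p ∉ J) ⊆ PI T a b ∪ PI T c d := by
    intro p hp
    rw [Finset.mem_filter, Finset.mem_Icc] at hp
    obtain ⟨⟨_, h2⟩, h3, h4, h5⟩ := hp
    rw [Finset.mem_union]
    rw [hJ] at h5
    unfold PI at h5 ⊢
    rw [Finset.mem_filter, Finset.mem_Ioc] at h5 ⊢
    rw [Finset.mem_filter, Finset.mem_Ioc]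
    rw [hy] at h4
    rw [hX] at h2
    by_cases h : p ≤ XK (Real.exp (-b)) T
    · exact Or.inl ⟨⟨h4, h⟩, h3⟩
    · right
      refine ⟨⟨?_, h2⟩, h3⟩
      by_contra h6
      exact h5 ⟨⟨by omega, by omega⟩, h3⟩
  refine (Finset.sum_le_sum_of_subset_of_nonneg hsub fun p _ _ => by positivity).trans ?_
  refine le_trans ?_ (add_le_add hA hB)
  rw [← Finset.sum_union_inter]
  have : 0 ≤ ∑ p ∈ PI T a b ∩ PI T c d, (1 : ℝ) / p := Finset.sum_nonneg fun p _ => by positivity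
  linarith

/-- **the largest increments of the argument** -/
theorem glue (e1 ε η : ℝ) (he : 0 < e1) (he1 : e1 ≤ 1 / 10) (hε : 0 < ε) (hη : 0 < η) : ∀ᶠ r : ℕ in atTop, ∀ᶠ T : ℝ in atTop,
    ∀ σ : ℝ, σ = 1 ∨ σ = -1 → 1 - η ≤ (PT T).real {t | ∃ b < r,
      (1 - 5 * e1 - 3 * ε) * Real.log r ≤ σ * (aS (t + 2 * Real.pi * b / Real.log T) - aS t)} := by
  classical
  obtain ⟨K0, hK03, hK0e⟩ : ∃ K0 : ℕ, 3 ≤ K0 ∧ 2 / e1 ≤ K0 :=
    ⟨max 3 ⌈2 / e1⌉₊, le_max_left _ _, (Nat.le_ceil _).trans (by exact_mod_cast le_max_right _ _)⟩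
  have hK0r : (0 : ℝ) < K0 := by exact_mod_cast (by omega : 0 < K0)
  have hK03r : (3 : ℝ) ≤ K0 := by exact_mod_cast hK03
  obtain ⟨δ0, hδ0, hlow⟩ := Pool.Agent.U429.UX.lowU e1 he he1 1 one_pos K0 hK03 hK0e (η / 2) (by positivity)
  obtain ⟨θ, δ, C, hθ, hθ1, hδ, hδ1, hC, hbad⟩ := bad_main
  obtain ⟨θ', δ', C', hθ', hδ', hδ'1, hC', hzb⟩ := zb_main
  obtain ⟨C1, hC1, hsum⟩ := sum_inv
  obtain ⟨Cv, hCv, hvh⟩ := sum_vh
  have hpi := Real.pi_pos
  have hpi3 := Real.pi_gt_three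
  have hpi4 := Real.pi_lt_d2
  obtain ⟨S1, hS1⟩ : ∃ S1 : ℝ, S1 = Cv * Real.log (2 + 2 * Real.pi) := ⟨_, rfl⟩
  have hS10 : 0 ≤ S1 := by
    rw [hS1]
    have := Real.log_nonneg (show (1 : ℝ) ≤ 2 + 2 * Real.pi by linarith)
    positivity
  have hlogr : Tendsto (fun r : ℕ => Real.log (r : ℝ)) atTop atTop :=
    Real.tendsto_log_atTop.comp tendsto_natCast_atTop_atTop
  filter_upwards [hlow, hlogr.eventually (qcond (e := e1) (S1 := S1) K0 hK03 hδ0 hθ hδ hθ' hδ' hC hC' hC1 hS10 hε (show 0 < η / 2 by positivity)),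
    eventually_ge_atTop 1] with r hr1 hq hr0
  obtain ⟨q, hqd⟩ : ∃ q : ℝ, q = Real.log r := ⟨_, rfl⟩
  rw [← hqd] at hr1 hq ⊢
  obtain ⟨q1, q2, q3, q4, q5, q6, q7, q8, q9⟩ := hq
  have hr0r : (0 : ℝ) < r := by exact_mod_cast hr0
  have hrq : (r : ℝ) = Real.exp q := by rw [hqd, Real.exp_log hr0r]
  obtain ⟨v0, hv0⟩ : ∃ v0 : ℝ, v0 = -Real.log δ := ⟨_, rfl⟩
  obtain ⟨v1, hv1⟩ : ∃ v1 : ℝ, v1 = -Real.log δ' := ⟨_, rfl⟩
  have ev0 : Real.exp (-v0) = δ := by rw [hv0, neg_neg, Real.exp_log hδ]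
  have ev1 : Real.exp (-v1) = δ' := by rw [hv1, neg_neg, Real.exp_log hδ']
  have hv00 : 0 ≤ v0 := by
    have := Real.log_nonpos hδ.le (by linarith)
    rw [hv0]; linarith
  have hv10 : 0 ≤ v1 := by
    have := Real.log_nonpos hδ'.le (by linarith)
    rw [hv1]; linarith
  have hv0q : v0 ≤ q / K0 := by
    rw [← ev0] at q2
    have := Real.exp_le_exp.1 q2
    linarith
  have hv1q : v1 ≤ q := by
    rw [← ev1] at q3
    have := Real.exp_le_exp.1 q3
    linarith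
  obtain ⟨K, hK⟩ : ∃ K : ℕ, K = ⌊θ * Real.exp (q / K0)⌋₊ := ⟨_, rfl⟩
  have hKle : (K : ℝ) ≤ θ * Real.exp (q / K0) := by rw [hK]; exact Nat.floor_le (by positivity)
  have hKge : θ * Real.exp (q / K0) ≤ K + 1 := by rw [hK]; exact (Nat.lt_floor_add_one _).le
  have hK2 : 2 * K0 ≤ K := by
    have : (2 : ℝ) * K0 ≤ K := by linarith
    exact_mod_cast this
  have hK1 : 1 ≤ K := by omega
  have hqK1 : q / K0 ≤ (K0 - 1) * q / K0 := by
    apply div_le_div_of_nonneg_right _ hK0r.le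
    have := mul_le_mul_of_nonneg_right (show (2 : ℝ) ≤ K0 by linarith only [hK03r]) (show (0 : ℝ) ≤ q by linarith only [q1])
    linarith only [this]
  have hqK2 : (K0 - 1) * q / K0 ≤ q := by
    rw [div_le_iff₀ hK0r]
    linarith only [q1]
  -- conditions on `T`
  have T1 := hsum q ((K0 - 1) * q / K0) hqK2
  have T2 := hsum ((K0 - 1) * q / K0) (q / K0) hqK1
  have T3 := hsum (q / K0) v0 hv0q
  have T4 := hsum q v1 hv1q
  have T5 := XK_log (κ := Real.exp (-q)) (Real.exp_pos _)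
  have T6 := XK_log (κ := Real.exp (-(q / K0))) (Real.exp_pos _)
  have T7 : ∀ᶠ T : ℝ in atTop, 1 / (q * Real.exp (-(q / K0))) ≤ Real.exp (-q) * Real.log T - Real.log 2 := by
    have : Tendsto (fun T : ℝ => Real.exp (-q) * Real.log T - Real.log 2) atTop atTop :=
      tendsto_atTop_add_const_right atTop (-Real.log 2) (Real.tendsto_log_atTop.const_mul_atTop (Real.exp_pos _))
    exact this.eventually_ge_atTop _
  filter_upwards [hr1, hbad, hzb, T1, T2, T3, T4, T5, T6, T7, eventually_ge_atTop 16, Real.tendsto_log_atTop.eventually_ge_atTop (2 * Real.pi * r),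
    Real.tendsto_log_atTop.eventually_ge_atTop q, Real.tendsto_log_atTop.eventually_ge_atTop (Real.exp (q / K0))] with
    T hT1 hT2 hT3 t1 t2 t3 t4 t5 t6 t7 hT16 hTr hTq hTe
  intro σ hσ
  have hT0 : 0 < T := by linarith
  have hTo : 1 ≤ T := by linarith
  have hprob := PT_univ hT0
  obtain ⟨L, hL⟩ : ∃ L : ℝ, L = Real.log T := ⟨_, rfl⟩
  rw [← hL] at hT1 t5 t6 t7 hTr hTq hTe ⊢
  have hL0 : 0 < L := lt_of_lt_of_le (Real.exp_pos _) hTe
  obtain ⟨l, hl⟩ : ∃ l : ℝ, l = L / (1 * q) := ⟨_, rfl⟩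
  rw [← hl] at hT1
  have hl0 : 0 < l := by rw [hl]; positivity
  obtain ⟨J, hJ⟩ : ∃ J : Finset ℕ, J = PI T ((K0 - 1) * q / K0) (q / K0) := ⟨_, rfl⟩
  rw [← hJ] at hT1
  obtain ⟨y, hy⟩ : ∃ y : ℕ, y = XK (Real.exp (-q)) T := ⟨_, rfl⟩
  obtain ⟨Y, hY⟩ : ∃ Y : ℕ, Y = XK (Real.exp (-(q / K0))) T := ⟨_, rfl⟩
  rw [← hy] at t5
  rw [← hY] at t6
  have hyY : y ≤ Y := by
    rw [hy, hY]
    exact XK_mono hTo (Real.exp_le_exp.2 (by linarith))
  have hy1 : 1 ≤ y := by omega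
  have hXδ : ⌊T ^ δ⌋₊ = XK (Real.exp (-v0)) T := by rw [ev0]; rfl
  have hXδ' : ⌊T ^ δ'⌋₊ = XK (Real.exp (-v1)) T := by rw [ev1]; rfl
  have hYX : Y ≤ ⌊T ^ δ⌋₊ := by
    rw [hXδ, hY]
    exact XK_mono hTo (Real.exp_le_exp.2 (by linarith))
  have hyX' : y ≤ ⌊T ^ δ'⌋₊ := by
    rw [hXδ', hy]
    exact XK_mono hTo (Real.exp_le_exp.2 (by linarith))
  have hJm : ∀ p ∈ J, p.Prime ∧ y < p ∧ p ≤ Y := by
    intro p hp
    rw [hJ] at hp
    unfold PI at hp
    rw [Finset.mem_filter, Finset.mem_Ioc] at hp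
    refine ⟨hp.2, lt_of_le_of_lt ?_ hp.1.1, ?_⟩
    · rw [hy]
      exact XK_mono hTo (Real.exp_le_exp.2 (by linarith))
    · rw [hY]; exact hp.1.2
  have hYK : ((Y ^ K : ℕ) : ℝ) ≤ T ^ θ := by
    have h1 : (Y : ℝ) ≤ T ^ Real.exp (-(q / K0)) := by rw [hY]; exact Nat.floor_le (by positivity)
    push_cast
    calc (Y : ℝ) ^ K ≤ (T ^ Real.exp (-(q / K0))) ^ K := pow_le_pow_left₀ (Nat.cast_nonneg _) h1 K
      _ = T ^ (Real.exp (-(q / K0)) * K) := by rw [← Real.rpow_natCast, ← Real.rpow_mul hT0.le]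
      _ ≤ T ^ θ := by
        apply Real.rpow_le_rpow_of_exponent_le hTo
        have h2 := mul_le_mul_of_nonneg_left hKle (Real.exp_pos (-(q / K0))).le
        have h3 : Real.exp (-(q / K0)) * (θ * Real.exp (q / K0)) = θ := by
          rw [mul_left_comm, ← Real.exp_add]; simp
        linarith
  have hyθ : (y : ℝ) ≤ T ^ θ' := by
    have h1 : (y : ℝ) ≤ T ^ Real.exp (-q) := by rw [hy]; exact Nat.floor_le (by positivity)
    exact h1.trans (Real.rpow_le_rpow_of_exponent_le hTo q4)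
  obtain ⟨ϑ, hϑ⟩ : ∃ ϑ : ℝ, ϑ = 64 * q * Real.exp (-(q / K0)) := ⟨_, rfl⟩
  rw [← hϑ] at q9
  have hϑ0 : 0 ≤ ϑ := by rw [hϑ]; positivity
  have hϑ1 : ϑ ≤ 1 := by
    have : ϑ * 1 ≤ ϑ * (1 + q + C1) := mul_le_mul_of_nonneg_left (by linarith) hϑ0
    linarith
  obtain ⟨V, hV⟩ : ∃ V : ℝ, V = q + C1 := ⟨_, rfl⟩
  have hV0 : 0 ≤ V := by rw [hV]; linarith
  have hJV : ∑ p ∈ J, (1 : ℝ) / p ≤ V := by
    rw [hJ, hV]
    have h1 := (abs_le.1 t2).2
    have : (0 : ℝ) ≤ q / K0 := by positivity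
    linarith
  have hw : ∀ p ∈ J, 1 - ϑ ≤ Real.pi * (Real.sqrt p * be l p) ∧ Real.pi * (Real.sqrt p * be l p) ≤ 1 := by
    intro p hp
    obtain ⟨h1, h2, h3⟩ := hJm p hp
    obtain ⟨b1, b2, b3⟩ := be_w hl0 h1
    refine ⟨?_, b1⟩
    have hpr : (0 : ℝ) < p := by exact_mod_cast h1.pos
    have hlp : Real.log p ≤ Real.exp (-(q / K0)) * L := by
      refine le_trans ?_ t6.2.1
      exact Real.log_le_log hpr (by exact_mod_cast h3)
    have hx0 : 0 < q * Real.exp (-(q / K0)) := by positivity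
    have hx1 : 64 * (q * Real.exp (-(q / K0))) ≤ 1 := by rw [hϑ] at hϑ1; linarith
    have hle : l = L / q := by rw [hl, one_mul]
    have g1 : 1 ≤ l := by rw [hle, one_le_div (by linarith)]; exact hTq
    have g2 : Real.log p ≤ l / 2 := by
      refine hlp.trans ?_
      rw [hle, div_div, le_div_iff₀ (by positivity)]
      have h8 := mul_le_mul_of_nonneg_right hx1 hL0.le
      have h9 : 0 ≤ q * Real.exp (-(q / K0)) * L := by positivity
      linarith only [h8, h9]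
    have g3 : (1 + Real.log p) / l + 1 / p ≤ 4 * (q * Real.exp (-(q / K0))) := by
      have k1 : 1 / l ≤ q * Real.exp (-(q / K0)) := by
        rw [hle, one_div_div, div_le_iff₀ hL0, mul_assoc]
        refine le_mul_of_one_le_right (by linarith) ?_
        have := mul_le_mul_of_nonneg_left hTe (Real.exp_pos (-(q / K0))).le
        rw [← Real.exp_add, neg_add_cancel, Real.exp_zero] at this
        exact this
      have k2 : Real.log p / l ≤ q * Real.exp (-(q / K0)) := by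
        rw [div_le_iff₀ hl0, hle]
        refine hlp.trans (le_of_eq ?_)
        field_simp
      have k3 : 1 / (p : ℝ) ≤ q * Real.exp (-(q / K0)) := by
        have k4 : Real.log y ≤ p := by
          have := Real.log_le_sub_one_of_pos (show (0 : ℝ) < y by exact_mod_cast hy1)
          have h5 : (y : ℝ) ≤ p := by exact_mod_cast h2.le
          linarith
        have k5 : 1 / (q * Real.exp (-(q / K0))) ≤ p := t7.trans (t5.1.trans k4)
        rw [div_le_iff₀ hx0] at k5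
        rw [div_le_iff₀ hpr]
        linarith
      rw [add_div]
      linarith
    have g4 := b3 _ g1 g2 g3
    rw [hϑ]
    linarith
  obtain ⟨S, hS⟩ : ∃ S : ℝ, S = 2 * q + 2 * C1 := ⟨_, rfl⟩
  have hSS : ∑ p ∈ (Finset.Icc 1 ⌊T ^ δ⌋₊).filter (fun p => p.Prime ∧ y < p ∧ p ∉ J), (1 : ℝ) / p ≤ S := by
    have h1 := (abs_le.1 t1).2
    have h2 := (abs_le.1 t3).2
    have h3 := sum_out hTo J hJ hy hXδ (A := q / K0 + C1) (B := q / K0 + C1) (by
      have : q - (K0 - 1) * q / K0 = q / K0 := by field_simp; ring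
      linarith) (by linarith)
    have h4 : q / K0 ≤ q := div_le_self (by linarith) (by linarith)
    rw [hS]
    linarith
  have hSZ : ∑ p ∈ (Finset.Icc 1 ⌊T ^ δ'⌋₊).filter (fun p => p.Prime ∧ y < p ∧ p ∉ (∅ : Finset ℕ)), (1 : ℝ) / p ≤ q + C1 := by
    have h2 := (abs_le.1 t4).2
    have hE : (∅ : Finset ℕ) = PI T q q := by
      unfold PI
      rw [Finset.Ioc_self, Finset.filter_empty]
    have h3 := sum_out hTo ∅ hE hy hXδ' (A := 0) (B := q + C1) (by rw [← hE]; simp) (by linarith)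
    linarith
  obtain ⟨μ, hμ⟩ : ∃ μ : ℝ, μ = σ * (Real.pi * (1 - e1)) := ⟨_, rfl⟩
  have hσ2 : σ ^ 2 = 1 := by rcases hσ with h | h <;> rw [h] <;> norm_num
  have hσa : |σ| = 1 := by rcases hσ with h | h <;> rw [h] <;> norm_num
  have hμa : |μ| ≤ 4 := by
    rw [hμ, abs_mul, hσa, one_mul, abs_of_nonneg (mul_nonneg hpi.le (by linarith only [he1]))]
    have := mul_pos hpi he
    linarith only [this, hpi4]
  have hμ2 : μ ^ 2 ≤ Real.pi ^ 2 := by
    rw [hμ, mul_pow, hσ2, one_mul]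
    have := mul_pos hpi he
    exact pow_le_pow_left₀ (mul_nonneg hpi.le (by linarith only [he1])) (by linarith only [this]) 2
  obtain ⟨W, hW⟩ : ∃ W : ℝ, W = ∑ p ∈ J, be l p ^ 2 := ⟨_, rfl⟩
  have hW0 : 0 ≤ W := by rw [hW]; exact Finset.sum_nonneg fun p _ => sq_nonneg _
  have hWV : μ ^ 2 * W ≤ V := by
    have h1 : W ≤ V / Real.pi ^ 2 := by
      rw [hW]
      calc ∑ p ∈ J, be l p ^ 2 ≤ ∑ p ∈ J, 1 / Real.pi ^ 2 * (1 / (p : ℝ)) := by
            refine Finset.sum_le_sum fun p hp => ?_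
            refine (be_w hl0 (hJm p hp).1).2.1.trans (le_of_eq ?_)
            field_simp
        _ = 1 / Real.pi ^ 2 * ∑ p ∈ J, (1 / (p : ℝ)) := by rw [Finset.mul_sum]
        _ ≤ 1 / Real.pi ^ 2 * V := mul_le_mul_of_nonneg_left hJV (by positivity)
        _ = _ := by ring
    calc μ ^ 2 * W ≤ Real.pi ^ 2 * (V / Real.pi ^ 2) := mul_le_mul hμ2 h1 hW0 (by positivity)
      _ = V := by field_simp
  have hvIW : (2 * Real.pi * (1 - e1)) ^ 2 / 2 * vI l J = μ ^ 2 * W := by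
    unfold vI
    have h1 : μ ^ 2 = (Real.pi * (1 - e1)) ^ 2 := by rw [hμ, mul_pow, hσ2, one_mul]
    rw [← hW, h1]
    ring
  rw [hvIW] at hT1
  have hεq : 0 < ε * q := by positivity
  -- the shifts
  have hh : ∀ b : ℕ, b < r → 0 ≤ 2 * Real.pi * (b : ℝ) / L ∧ 2 * Real.pi * (b : ℝ) / L ≤ 1 ∧ 2 * Real.pi * (b : ℝ) / L * Real.log y ≤ 2 * Real.pi := by
    intro b hb
    have hbr : (b : ℝ) ≤ r := by exact_mod_cast hb.le
    have hb0 : (0 : ℝ) ≤ b := Nat.cast_nonneg b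
    refine ⟨by positivity, ?_, ?_⟩
    · rw [div_le_one hL0]
      have := mul_le_mul_of_nonneg_left hbr (show 0 ≤ 2 * Real.pi by positivity)
      linarith only [this, hTr]
    · have h1 : Real.log y ≤ Real.exp (-q) * L := t5.2.1
      have h2 : (b : ℝ) * Real.exp (-q) ≤ 1 := by
        have : Real.exp q * Real.exp (-q) = 1 := by rw [← Real.exp_add]; simp
        rw [hrq] at hbr
        have h3 := mul_le_mul_of_nonneg_right hbr (Real.exp_pos (-q)).le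
        linarith
      calc 2 * Real.pi * (b : ℝ) / L * Real.log y ≤ 2 * Real.pi * (b : ℝ) / L * (Real.exp (-q) * L) :=
            mul_le_mul_of_nonneg_left h1 (by positivity)
        _ = 2 * Real.pi * (b * Real.exp (-q)) := by field_simp
        _ ≤ 2 * Real.pi * 1 := mul_le_mul_of_nonneg_left h2 (by positivity)
        _ = _ := mul_one _
  have hS' : ∀ b : ℕ, b < r → ∑ p ∈ (Finset.Icc 1 y).filter Nat.Prime,
      ‖(p : ℂ) ^ (-(((2 * Real.pi * (b : ℝ) / L : ℝ) : ℂ) * I)) - 1‖ ^ 2 / p ≤ S1 := by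
    intro b hb
    obtain ⟨h1, h2, h3⟩ := hh b hb
    rcases h1.eq_or_lt with h4 | h4
    · rw [← h4]
      refine le_trans (le_of_eq (Finset.sum_eq_zero fun p _ => ?_)) hS10
      simp
    · have h5 := hvh _ h4 h2 y t5.2.2
      refine h5.trans ?_
      rw [hS1]
      refine mul_le_mul_of_nonneg_left (Real.log_le_log ?_ (by linarith)) hCv.le
      have := Real.log_nonneg (show (1 : ℝ) ≤ y by exact_mod_cast hy1)
      positivity
  -- the bad sets
  have hex : ∀ b : ℕ, ∃ B1 B2 : Set ℝ, b < r → MeasurableSet B1 ∧ MeasurableSet B2 ∧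
      (volume (B1 ∩ Set.Ioc T (2 * T))).toReal ≤ 2 * T * ((2 * K0).factorial * (μ ^ 2 * W) ^ (2 * K0)) / ((K + 1 : ℝ) / 8) ^ (2 * (2 * K0)) ∧
      ∫ t in B2 ∩ Set.Ioc T (2 * T), Real.exp (2 * μ * Fl (be l) J (t + 2 * Real.pi * b / L)) ≤
        4 * (C * (2 + S + S1 + ϑ ^ 2 * V + (ϑ * V) ^ 2)) / (ε * q) ^ 2 * (T * Real.exp (μ ^ 2 * W)) ∧
      ∀ t, t ∉ B1 → t ∉ B2 → |aS (t + 2 * Real.pi * b / L) - (LE y (t + 2 * Real.pi * b / L)).im - Real.pi * Fl (be l) J (t + 2 * Real.pi * b / L)| ≤ ε * q ∧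
        ‖LE y (t + 2 * Real.pi * b / L) - LE y t‖ ≤ ε * q := by
    intro b
    by_cases hb : b < r
    · obtain ⟨h1, h2, h3⟩ := hh b hb
      obtain ⟨B1, B2, g⟩ := hT2 (2 * Real.pi * b / L) μ ϑ S V S1 (ε * q) (be l) J y Y K (2 * K0)
        (by rw [abs_of_nonneg h1]; linarith) hμa hy1 hyY hYX hK1 hK2 hYK hJm hϑ0 hϑ1 hw hSS hJV (hS' b hb) hεq
      rw [← hW] at g
      exact ⟨B1, B2, fun _ => g⟩
    · exact ⟨∅, ∅, fun h => absurd h hb⟩
  choose B1 B2 hB using hex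
  have hlowT := hT1 σ hσ B1 B2 (fun b hb => (hB b hb).1) (fun b hb => (hB b hb).2.1) (by
    intro b hb
    obtain ⟨m1, m2, g1, g2, g3⟩ := hB b hb
    rw [PT_real hT0 m1, div_le_iff₀ hT0, Measure.real]
    refine g1.trans ?_
    have h1 : (μ ^ 2 * W) ^ (2 * K0) ≤ (q + C1) ^ (2 * K0) :=
      pow_le_pow_left₀ (by positivity) (by rw [← hV]; exact hWV) _
    have h2 : (θ / 8 * Real.exp (q / K0)) ^ (4 * K0) ≤ ((K + 1 : ℝ) / 8) ^ (2 * (2 * K0)) := by
      rw [show 2 * (2 * K0) = 4 * K0 by ring]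
      exact pow_le_pow_left₀ (by positivity) (by linarith) _
    have h3 : (θ / 8 * Real.exp (q / K0)) ^ (4 * K0) = (θ / 8) ^ (4 * K0) * Real.exp (4 * q) := by
      rw [mul_pow, ← Real.exp_nat_mul]
      congr 2
      push_cast
      field_simp
    rw [h3] at h2
    have h4 : 2 * ((2 * K0).factorial * (q + C1) ^ (2 * K0)) ≤ Real.exp q * (θ / 8) ^ (4 * K0) := by
      have h5 : (8 / θ) ^ (4 * K0) * (θ / 8) ^ (4 * K0) = 1 := by
        rw [← mul_pow]
        have : 8 / θ * (θ / 8) = 1 := by field_simp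
        rw [this, one_pow]
      have h6 := mul_le_mul_of_nonneg_right q6 (by positivity : 0 ≤ (θ / 8) ^ (4 * K0))
      rw [mul_assoc, h5, mul_one] at h6
      exact h6
    rw [div_le_iff₀ (by positivity)]
    have h7 : Real.exp (-(3 * q)) * Real.exp (4 * q) = Real.exp q := by rw [← Real.exp_add]; congr 1; ring
    calc 2 * T * ((2 * K0).factorial * (μ ^ 2 * W) ^ (2 * K0)) ≤ 2 * T * ((2 * K0).factorial * (q + C1) ^ (2 * K0)) := by gcongr
      _ = T * (2 * ((2 * K0).factorial * (q + C1) ^ (2 * K0))) := by ring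
      _ ≤ T * (Real.exp q * (θ / 8) ^ (4 * K0)) := mul_le_mul_of_nonneg_left h4 hT0.le
      _ = Real.exp (-(3 * q)) * T * ((θ / 8) ^ (4 * K0) * Real.exp (4 * q)) := by rw [← h7]; ring
      _ ≤ Real.exp (-(3 * q)) * T * ((K + 1 : ℝ) / 8) ^ (2 * (2 * K0)) := mul_le_mul_of_nonneg_left h2 (by positivity)) (by
    intro b hb
    obtain ⟨m1, m2, g1, g2, g3⟩ := hB b hb
    rw [PT_set hT0 m2, div_le_iff₀ hT0]
    have e1' : ∀ t, 2 * Real.pi * (1 - e1) * (σ * fld l J (t + 2 * Real.pi * b / L)) = 2 * μ * Fl (be l) J (t + 2 * Real.pi * b / L) := by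
      intro t
      rw [hμ]
      show 2 * Real.pi * (1 - e1) * (σ * Fl (be l) J (t + 2 * Real.pi * b / L)) = _
      ring
    simp only [e1']
    refine g2.trans ?_
    have h1 : ϑ ^ 2 * V ≤ 1 := by
      have a1 : ϑ * V ≤ 1 := by
        refine le_trans (mul_le_mul_of_nonneg_left ?_ hϑ0) q9
        rw [hV]; linarith
      calc ϑ ^ 2 * V = ϑ * (ϑ * V) := by ring
        _ ≤ 1 * 1 := mul_le_mul hϑ1 a1 (by positivity) zero_le_one
        _ = 1 := one_mul 1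
    have h2 : (ϑ * V) ^ 2 ≤ 1 := by
      refine pow_le_one₀ (by positivity) ?_
      refine le_trans (mul_le_mul_of_nonneg_left ?_ hϑ0) q9
      rw [hV]; linarith
    have h3 : 4 * (C * (2 + S + S1 + ϑ ^ 2 * V + (ϑ * V) ^ 2)) / (ε * q) ^ 2 ≤ δ0 := by
      refine le_trans ?_ q7
      rw [hS]
      apply div_le_div_of_nonneg_right _ (by positivity)
      refine mul_le_mul_of_nonneg_left (mul_le_mul_of_nonneg_left ?_ hC) (by norm_num)
      linarith
    calc 4 * (C * (2 + S + S1 + ϑ ^ 2 * V + (ϑ * V) ^ 2)) / (ε * q) ^ 2 * (T * Real.exp (μ ^ 2 * W)) ≤ δ0 * (T * Real.exp (μ ^ 2 * W)) :=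
          mul_le_mul_of_nonneg_right h3 (by positivity)
      _ = _ := by ring)
  -- the argument at the base point
  obtain ⟨EZ, hEZ⟩ : ∃ EZ : Set ℝ, EZ = {t : ℝ | ε * q < |aS t - (LE y t).im|} := ⟨_, rfl⟩
  have hEZm : MeasurableSet EZ := by
    rw [hEZ]
    exact measurableSet_lt measurable_const ((aS_meas.sub (Complex.measurable_im.comp (LE_cont y).measurable)).abs)
  have hZ : (PT T).real EZ ≤ η / 2 := by
    have h1 := hT3 (q + C1) (ε * q) y hy1 hyX' hyθ hSZ hεq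
    rw [← hEZ] at h1
    rw [PT_real hT0 hEZm, div_le_iff₀ hT0, Measure.real]
    refine h1.trans (mul_le_mul_of_nonneg_right ?_ hT0.le)
    exact q8
  obtain ⟨G, hG⟩ : ∃ G : Set ℝ, G = {t | ∃ b < r, t ∉ B1 b ∧ t ∉ B2 b ∧ (1 - 5 * e1) / Real.pi * q < σ * fld l J (t + 2 * Real.pi * b / L)} := ⟨_, rfl⟩
  rw [← hG] at hlowT
  obtain ⟨F, hF⟩ : ∃ F : Set ℝ, F = {t | ∃ b < r, (1 - 5 * e1 - 3 * ε) * q ≤ σ * (aS (t + 2 * Real.pi * b / L) - aS t)} := ⟨_, rfl⟩
  rw [← hF]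
  have hsub : G ⊆ F ∪ EZ := by
    intro t ht
    by_cases hz : t ∈ EZ
    · exact Or.inr hz
    · left
      rw [hG] at ht
      rw [hEZ] at hz
      simp only [Set.mem_ofPred_eq, not_lt] at hz
      obtain ⟨b, hb, n1, n2, n3⟩ := ht
      obtain ⟨-, -, -, -, g3⟩ := hB b hb
      obtain ⟨k1, k2⟩ := g3 t n1 n2
      rw [hF]
      refine ⟨b, hb, ?_⟩
      have k3 : |(LE y (t + 2 * Real.pi * b / L)).im - (LE y t).im| ≤ ε * q := by
        rw [← Complex.sub_im]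
        exact (Complex.abs_im_le_norm _).trans k2
      have k4 : (1 - 5 * e1) * q < σ * (Real.pi * Fl (be l) J (t + 2 * Real.pi * b / L)) := by
        have h1 := mul_lt_mul_of_pos_left n3 hpi
        have h2 : Real.pi * ((1 - 5 * e1) / Real.pi * q) = (1 - 5 * e1) * q := by field_simp
        rw [h2] at h1
        refine h1.trans_le (le_of_eq ?_)
        show Real.pi * (σ * Fl (be l) J (t + 2 * Real.pi * b / L)) = _
        ring
      have k5 : σ * (aS (t + 2 * Real.pi * b / L) - aS t) = σ * (Real.pi * Fl (be l) J (t + 2 * Real.pi * b / L)) +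
          σ * (aS (t + 2 * Real.pi * b / L) - (LE y (t + 2 * Real.pi * b / L)).im - Real.pi * Fl (be l) J (t + 2 * Real.pi * b / L)) +
          σ * ((LE y (t + 2 * Real.pi * b / L)).im - (LE y t).im) - σ * (aS t - (LE y t).im) := by ring
      have k6 : ∀ x : ℝ, |x| ≤ ε * q → |σ * x| ≤ ε * q := fun x hx => by rw [abs_mul, hσa, one_mul]; exact hx
      have m1 := (abs_le.1 (k6 _ k1)).1
      have m2 := (abs_le.1 (k6 _ k3)).1
      have m3 := (abs_le.1 (k6 _ hz)).2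
      rw [k5]
      linarith
  have h1 := (measureReal_mono hsub (measure_ne_top (PT T) _)).trans (measureReal_union_le (μ := PT T) F EZ)
  linarith

end

end Pool.Agent.U761.UX
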