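import Pool.Agent.U761.UX.TE2

set_option autoImplicit false

/-!
U761.UX: the error terms relative to a truncated exponential.
-/

namespace Pool.Agent.U761.UX

open Filter Topology MeasureTheory Complex
open Pool.Agent.Q97.UM Pool.Agent.Q247.UM Pool.Agent.Q241.UM Pool.Agent.U761.SZ
open Pool.Agent.Q149.UM (zp norm_zp_le norm_zp_cube sum_le_Z3 Z3 Z3_nonneg)

noncomputable section

/-- the general relative second moment -/
theorem gen_rel {T A C₁ B0 S R : ℝ} (hT : 16 ≤ T) {q c d : ℕ → ℂ} {P : Finset ℕ} (hA : 1 ≤ A)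
    (hq : ∀ n, q n ≠ 0 → n.Prime ∧ n ∈ P) (hqA : ∀ n, ‖q n‖ ≤ A) (hd : ∀ n, ‖d n‖ ≤ 1) {K N X : ℕ} (hX : 1 ≤ X)
    (hN : ∀ n, te q K n ≠ 0 → 1 ≤ n ∧ n ≤ N)
    (hlen2 : ((X ^ 2 * N : ℕ) : ℝ) ≤ T ^ (1 / 4 : ℝ)) (hC₁ : 0 ≤ C₁)
    (hS : ∑ p ∈ (Finset.Icc 1 X).filter Nat.Prime, ‖c p‖ ^ 2 / p ≤ S)
    (hR : ∑ p ∈ (Finset.Icc 1 X).filter Nat.Prime, ‖c p‖ * ‖q p‖ / p ≤ R)
    {U Z : ℝ → ℂ} (hZm : Measurable Z) (hUZ : ∀ t, ‖Z t - U t - PS X c t - SS X d t‖ ≤ B0)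
    (hI : IntervalIntegrable (fun t => ‖U t‖ ^ 2 * ‖dp N (te q K) t‖ ^ 2) volume T (2 * T))
    (hB : ∫ t in T..(2 * T), ‖U t‖ ^ 2 * ‖dp N (te q K) t‖ ^ 2 ≤ C₁ * T * N2 N (te q K)) :
    IntervalIntegrable (fun t => ‖Z t‖ ^ 2 * ‖dp N (te q K) t‖ ^ 2) volume T (2 * T) ∧
    ∫ t in T..(2 * T), ‖Z t‖ ^ 2 * ‖dp N (te q K) t‖ ^ 2 ≤
      (4 * C₁ + 8 * (S + R ^ 2) + 8 * (2 + 4 * A ^ 4) + 8 * B0 ^ 2) * (T * N2 N (te q K)) := by
  have hXr : 1 ≤ X := hX
  have hlen1 : ((X * N : ℕ) : ℝ) ≤ T ^ (1 / 4 : ℝ) := by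
    refine le_trans ?_ hlen2
    exact_mod_cast Nat.mul_le_mul_right N (Nat.le_self_pow (by norm_num) X)
  have hlen0 : (N : ℝ) ≤ T ^ (1 / 4 : ℝ) := by
    refine le_trans ?_ hlen1
    exact_mod_cast Nat.le_mul_of_pos_left N hX
  obtain ⟨n2, hn2⟩ : ∃ n2 : ℝ, n2 = N2 N (te q K) := ⟨_, rfl⟩
  have hn20 : 0 ≤ n2 := by rw [hn2]; exact Pool.Agent.Q97.UM.N2_nonneg _ _
  have I1 := PS_rel (c := c) hT (fun n h => (hq n h).1) hX hN hlen1 hS hR
  have I2 := SS_mom hT hA hq hqA hd hX hN hlen2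
  have I3 := (Pool.Agent.Q84.UM.t_MVL T hT N hlen0 (te q K)).2
  rw [← hn2] at I1 I2 I3 hB ⊢
  obtain ⟨E, hE⟩ : ∃ E : ℝ → ℂ, E = dp N (te q K) := ⟨_, rfl⟩
  have hEc : Continuous E := by rw [hE]; exact (Pool.Agent.Q84.UM.t_DPM.2.2 _ _ 0).2
  rw [← hE] at I1 I2 I3 hI hB ⊢
  have cB : Continuous fun t => ‖E t‖ ^ 2 := hEc.norm.pow 2
  have cG : Continuous fun t => ‖PS X c t * E t‖ ^ 2 := ((PS_cont X c).mul hEc).norm.pow 2
  have cH : Continuous fun t => ‖SS X d t * E t‖ ^ 2 := ((SS_cont X d).mul hEc).norm.pow 2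
  have hpt : ∀ t, ‖Z t‖ ^ 2 * ‖E t‖ ^ 2 ≤ 4 * (‖U t‖ ^ 2 * ‖E t‖ ^ 2 + ‖PS X c t * E t‖ ^ 2 +
      ‖SS X d t * E t‖ ^ 2 + B0 ^ 2 * ‖E t‖ ^ 2) := by
    intro t
    have h1 := hUZ t
    have h2 : ‖Z t‖ ≤ ‖U t‖ + ‖PS X c t‖ + ‖SS X d t‖ + B0 := by
      have e : Z t = U t + PS X c t + SS X d t + (Z t - U t - PS X c t - SS X d t) := by ring
      calc ‖Z t‖ = ‖U t + PS X c t + SS X d t + (Z t - U t - PS X c t - SS X d t)‖ := by rw [← e]
        _ ≤ _ := (norm_add_le _ _).trans (add_le_add ((norm_add_le _ _).trans (add_le_add_left (norm_add_le _ _) _)) h1)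
    have h3 : ‖Z t‖ ^ 2 ≤ 4 * (‖U t‖ ^ 2 + ‖PS X c t‖ ^ 2 + ‖SS X d t‖ ^ 2 + B0 ^ 2) :=
      (pow_le_pow_left₀ (norm_nonneg _) h2 2).trans (four_sq _ _ _ _)
    have h4 := mul_le_mul_of_nonneg_right h3 (sq_nonneg ‖E t‖)
    refine h4.trans (le_of_eq ?_)
    rw [norm_mul, norm_mul]
    ring
  have hint : IntervalIntegrable (fun t => 4 * (‖U t‖ ^ 2 * ‖E t‖ ^ 2 + ‖PS X c t * E t‖ ^ 2 +
      ‖SS X d t * E t‖ ^ 2 + B0 ^ 2 * ‖E t‖ ^ 2)) volume T (2 * T) :=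
    (((hI.add (cG.intervalIntegrable _ _)).add (cH.intervalIntegrable _ _)).add
      ((cB.const_mul _).intervalIntegrable _ _)).const_mul 4
  have hmeas : Measurable fun t => ‖Z t‖ ^ 2 * ‖E t‖ ^ 2 := ((hZm.norm).pow_const 2).mul cB.measurable
  have hInt : IntervalIntegrable (fun t => ‖Z t‖ ^ 2 * ‖E t‖ ^ 2) volume T (2 * T) := by
    refine hint.mono_fun' hmeas.aestronglyMeasurable (Eventually.of_forall fun t => ?_)
    show ‖‖Z t‖ ^ 2 * ‖E t‖ ^ 2‖ ≤ _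
    rw [Real.norm_of_nonneg (by positivity)]
    exact hpt t
  refine ⟨hInt, ?_⟩
  have h1 := intervalIntegral.integral_mono_on (by linarith) hInt hint fun t _ => hpt t
  refine h1.trans ?_
  rw [intervalIntegral.integral_const_mul,
    intervalIntegral.integral_add ((hI.add (cG.intervalIntegrable _ _)).add (cH.intervalIntegrable _ _))
      ((cB.const_mul _).intervalIntegrable _ _),
    intervalIntegral.integral_add (hI.add (cG.intervalIntegrable _ _)) (cH.intervalIntegrable _ _),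
    intervalIntegral.integral_add hI (cG.intervalIntegrable _ _), intervalIntegral.integral_const_mul]
  have h2 : B0 ^ 2 * (∫ t in T..(2 * T), ‖E t‖ ^ 2) ≤ B0 ^ 2 * (2 * T * n2) :=
    mul_le_mul_of_nonneg_left I3 (by positivity)
  linarith [show (4 * C₁ + 8 * (S + R ^ 2) + 8 * (2 + 4 * A ^ 4) + 8 * B0 ^ 2) * (T * n2) =
    4 * (C₁ * T * n2 + 2 * T * ((S + R ^ 2) * n2) + 2 * T * ((2 + 4 * A ^ 4) * n2) + B0 ^ 2 * (2 * T * n2)) by ring]

/-- the truncated exponential from below -/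
theorem texp_low {z : ℂ} {K : ℕ} (hK : 1 ≤ K) (hz : 8 * ‖z‖ ≤ K + 1) :
    Real.exp (2 * z.re) ≤ 4 * ‖∑ r ∈ Finset.range (K + 1), z ^ r / (r.factorial : ℂ)‖ ^ 2 := by
  have hz0 := norm_nonneg z
  obtain ⟨n, hn⟩ : ∃ n : ℕ, n = K + 1 := ⟨_, rfl⟩
  have hn2 : (2 : ℝ) ≤ n := by rw [hn]; push_cast; have : (1 : ℝ) ≤ K := by exact_mod_cast hK
                               linarith
  have hzn : 8 * ‖z‖ ≤ n := by rw [hn]; push_cast; linarith
  rw [← hn]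
  obtain ⟨s, hs⟩ : ∃ s : ℂ, s = ∑ r ∈ Finset.range n, z ^ r / (r.factorial : ℂ) := ⟨_, rfl⟩
  rw [← hs]
  have h1 : ‖Complex.exp z - s‖ ≤ ‖z‖ ^ n / n.factorial * 2 := by
    rw [hs]
    refine Complex.exp_bound' ?_
    push_cast
    rw [div_le_iff₀ (by linarith)]
    linarith
  have h2 : ‖z‖ ^ n / n.factorial ≤ Real.exp n / 8 ^ n := by
    have h3 : (8 * ‖z‖) ^ n / n.factorial ≤ (n : ℝ) ^ n / n.factorial :=
      div_le_div_of_nonneg_right (pow_le_pow_left₀ (by positivity) hzn n) (by positivity)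
    have h4 : (n : ℝ) ^ n / n.factorial ≤ Real.exp n := Real.pow_div_factorial_le_exp n (by positivity) n
    rw [mul_pow] at h3
    rw [le_div_iff₀ (by positivity)]
    calc ‖z‖ ^ n / n.factorial * 8 ^ n = 8 ^ n * ‖z‖ ^ n / n.factorial := by ring
      _ ≤ _ := h3.trans h4
  have h5 : 4 * (Real.exp n / 8 ^ n) ≤ Real.exp (-‖z‖) := by
    have h6 : Real.exp (-((n : ℝ) / 8)) ≤ Real.exp (-‖z‖) := Real.exp_le_exp.2 (by linarith)
    refine le_trans ?_ h6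
    rw [Real.exp_neg, ← one_div, le_div_iff₀ (Real.exp_pos _), mul_assoc, div_mul_eq_mul_div, ← Real.exp_add, ← mul_div_assoc,
      div_le_one (by positivity)]
    have h7 : Real.exp ((n : ℝ) + n / 8) = Real.exp (9 / 8) ^ n := by
      rw [← Real.exp_nat_mul]
      congr 1
      ring
    rw [h7]
    have h8 : Real.exp (9 / 8) ≤ 4 := by
      have h9 : Real.exp (9 / 8) ≤ Real.exp 1 * Real.exp (1 / 8) := by rw [← Real.exp_add]; norm_num
      have h10 := Real.exp_one_lt_d9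
      have h11 : Real.exp (1 / 8) ≤ 8 / 7 := by
        have := Real.add_one_le_exp (-(1 / 8 : ℝ))
        have h12 : Real.exp (1 / 8) * Real.exp (-(1 / 8)) = 1 := by rw [← Real.exp_add]; simp
        have h13 := Real.exp_pos (1 / 8)
        nlinarith
      have h14 : Real.exp 1 * Real.exp (1 / 8) ≤ 2.7182818286 * (8 / 7) :=
        mul_le_mul h10.le h11 (Real.exp_pos _).le (by norm_num)
      linarith
    have h15 : Real.exp (9 / 8) ^ n ≤ 4 ^ n := pow_le_pow_left₀ (Real.exp_pos _).le h8 n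
    have h16 : (4 : ℝ) ≤ 2 ^ n := by
      have : 2 ≤ n := by exact_mod_cast hn2
      calc (4 : ℝ) = 2 ^ 2 := by norm_num
        _ ≤ 2 ^ n := pow_le_pow_right₀ (by norm_num) this
    calc 4 * Real.exp (9 / 8) ^ n ≤ 2 ^ n * 4 ^ n := mul_le_mul h16 h15 (by positivity) (by positivity)
      _ = 8 ^ n := by rw [← mul_pow]; norm_num
  have h6 : ‖Complex.exp z‖ = Real.exp z.re := Complex.norm_exp z
  have h7 : Real.exp (-‖z‖) ≤ Real.exp z.re := Real.exp_le_exp.2 (by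
    have := abs_le.1 (Complex.abs_re_le_norm z)
    linarith)
  have h8 : Real.exp z.re ≤ ‖s‖ + Real.exp z.re / 2 := by
    have h9 : ‖Complex.exp z‖ ≤ ‖Complex.exp z - s‖ + ‖s‖ := by
      calc ‖Complex.exp z‖ = ‖(Complex.exp z - s) + s‖ := by rw [sub_add_cancel]
        _ ≤ _ := norm_add_le _ _
    rw [h6] at h9
    linarith
  have h9 : Real.exp z.re ≤ 2 * ‖s‖ := by linarith
  calc Real.exp (2 * z.re) = Real.exp z.re ^ 2 := by rw [← Real.exp_nat_mul]; norm_num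
    _ ≤ (2 * ‖s‖) ^ 2 := pow_le_pow_left₀ (Real.exp_pos _).le h9 2
    _ = _ := by ring

/-- the mean square of the convolution powers -/
theorem N2_cvp_le {q : ℕ → ℂ} {P : Finset ℕ} (hq : ∀ n, q n ≠ 0 → n.Prime ∧ n ∈ P) (hP : ∀ p ∈ P, p.Prime) (r N : ℕ) :
    N2 N (cvp q r) ≤ r.factorial * (∑ p ∈ P, ‖q p‖ ^ 2 / p) ^ r := by
  classical
  have hq' : ∀ n, q n ≠ 0 → n.Prime := fun n h => (hq n h).1
  obtain ⟨V, hV⟩ : ∃ V : ℝ, V = ∑ p ∈ P, ‖q p‖ ^ 2 / (p : ℝ) := ⟨_, rfl⟩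
  have hV0 : 0 ≤ V := by rw [hV]; exact Finset.sum_nonneg fun p _ => by positivity
  obtain ⟨a, ha⟩ : ∃ a : ℕ → ℝ, a = fun j => ∑ m ∈ Finset.Icc 1 N, (if ArithmeticFunction.cardFactors m = j then ‖te q r m‖ ^ 2 / m else 0) := ⟨_, rfl⟩
  have h1 : ∀ j : ℕ, ((j : ℝ) + 1) * a (j + 1) ≤ V * a j := by
    intro j
    rw [ha, hV]
    exact layer hq hP j
  have h0 : a 0 ≤ 1 := by
    rw [ha]
    simp only
    have h2 : ∀ m ∈ Finset.Icc 1 N, (if ArithmeticFunction.cardFactors m = 0 then ‖te q r m‖ ^ 2 / (m : ℝ) else 0) ≤ if m = 1 then 1 else 0 := by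
      intro m hm
      by_cases h : ArithmeticFunction.cardFactors m = 0
      · rw [if_pos h]
        have hm1 : m = 1 := by
          rcases ArithmeticFunction.cardFactors_eq_zero_iff_eq_zero_or_one.1 h with h3 | h3
          · rw [Finset.mem_Icc] at hm; omega
          · exact h3
        rw [if_pos hm1, hm1, te_eq hq']
        have e : gq q 1 = 1 := by unfold gq; simp
        rw [if_pos (by simp), e]
        simp
      · rw [if_neg h]
        split_ifs <;> norm_num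
    refine (Finset.sum_le_sum h2).trans ?_
    rw [Finset.sum_ite_eq']
    split_ifs <;> norm_num
  have h2 : ∀ j : ℕ, a j ≤ V ^ j / j.factorial := by
    intro j
    induction j with
    | zero => simpa using h0
    | succ j ih =>
      have h3 := h1 j
      have h4 := mul_le_mul_of_nonneg_left ih hV0
      rw [Nat.factorial_succ, le_div_iff₀ (by positivity)]
      push_cast
      have hf : (0 : ℝ) < j.factorial := by positivity
      calc a (j + 1) * (((j : ℝ) + 1) * j.factorial) = (((j : ℝ) + 1) * a (j + 1)) * j.factorial := by ring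
        _ ≤ (V * (V ^ j / j.factorial)) * j.factorial := mul_le_mul_of_nonneg_right (h3.trans h4) hf.le
        _ = V ^ (j + 1) := by field_simp; ring
  have h3 : N2 N (cvp q r) = (r.factorial : ℝ) ^ 2 * a r := by
    rw [ha]
    unfold N2
    simp only
    rw [Finset.mul_sum]
    refine Finset.sum_congr rfl fun m hm => ?_
    have hm0 : m ≠ 0 := by rw [Finset.mem_Icc] at hm; omega
    rw [cvp_eq hq', te_eq hq']
    by_cases h : ArithmeticFunction.cardFactors m = r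
    · rw [if_pos ⟨hm0, h⟩, if_pos h, if_pos ⟨hm0, h.le⟩, norm_mul, Complex.norm_natCast]
      ring
    · rw [if_neg (fun h' => h h'.2), if_neg h]
      simp
  rw [h3, ← hV]
  have h4 := mul_le_mul_of_nonneg_left (h2 r) (by positivity : (0 : ℝ) ≤ (r.factorial : ℝ) ^ 2)
  refine h4.trans (le_of_eq ?_)
  have hf : (0 : ℝ) < r.factorial := by positivity
  field_simp

/-- high moments of the sum over primes -/
theorem dp_tail {T : ℝ} (hT : 16 ≤ T) {q : ℕ → ℂ} {P : Finset ℕ} (hq : ∀ n, q n ≠ 0 → n.Prime ∧ n ∈ P) (hP : ∀ p ∈ P, p.Prime)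
    {Y k : ℕ} (hqY : ∀ n, Y < n → q n = 0) (hlen : ((Y ^ k : ℕ) : ℝ) ≤ T ^ (1 / 4 : ℝ)) {B : ℝ} (hB : 0 < B) :
    (volume {t : ℝ | T < t ∧ t ≤ 2 * T ∧ B < ‖dp Y q t‖}).toReal ≤
      2 * T * (k.factorial * (∑ p ∈ P, ‖q p‖ ^ 2 / p) ^ k) / B ^ (2 * k) := by
  have h1 := (Pool.Agent.Q84.UM.t_MVL T hT (Y ^ k) hlen (cvp q k)).2
  have h2 := h1.trans (mul_le_mul_of_nonneg_left (N2_cvp_le hq hP k (Y ^ k)) (by linarith : 0 ≤ 2 * T))
  have hdp : ∀ t, dp (Y ^ k) (cvp q k) t = dp Y q t ^ k := fun t =>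
    Pool.Agent.Q14.UM.dp_cvp Pool.Agent.Q84.UM.t_DPM q Y hqY t k
  have hc : Continuous (dp Y q) := (Pool.Agent.Q84.UM.t_DPM.2.2 _ _ 0).2
  simp only [hdp] at h2
  obtain ⟨E, hE⟩ : ∃ E : Set ℝ, E = {t : ℝ | T < t ∧ t ≤ 2 * T ∧ B < ‖dp Y q t‖} := ⟨_, rfl⟩
  rw [← hE]
  have hEm : MeasurableSet E := by
    rw [hE]
    exact (measurableSet_lt measurable_const measurable_id).inter ((measurableSet_le measurable_id measurable_const).inter
      (measurableSet_lt measurable_const hc.norm.measurable))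
  have hEs : E ⊆ Set.Ioc T (2 * T) := by
    rw [hE]
    intro t ht
    exact ⟨ht.1, ht.2.1⟩
  have hEf : volume E ≠ ⊤ := ((measure_mono hEs).trans_lt (by rw [Real.volume_Ioc]; exact ENNReal.ofReal_lt_top)).ne
  have hTT : T ≤ 2 * T := by linarith
  rw [intervalIntegral.integral_of_le hTT] at h2
  have hi : IntegrableOn (fun t => ‖dp Y q t ^ k‖ ^ 2) (Set.Ioc T (2 * T)) :=
    ((hc.pow k).norm.pow 2).integrableOn_Ioc
  have h3 : ∫ t in E, B ^ (2 * k) ≤ ∫ t in Set.Ioc T (2 * T), ‖dp Y q t ^ k‖ ^ 2 := by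
    refine le_trans (setIntegral_mono_on (integrableOn_const hEf) (hi.mono_set hEs) hEm fun t ht => ?_)
      (setIntegral_mono_set hi (Eventually.of_forall fun t => sq_nonneg _) (Eventually.of_forall hEs))
    rw [hE] at ht
    rw [norm_pow, ← pow_mul, mul_comm k 2]
    exact pow_le_pow_left₀ hB.le ht.2.2.le _
  rw [setIntegral_const, smul_eq_mul, Measure.real] at h3
  rw [le_div_iff₀ (by positivity)]
  exact h3.trans h2

end

end Pool.Agent.U761.UX
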