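import Pool.Agent.U761.UX.REL

set_option autoImplicit false

/-!
U761.UX: the argument of zeta at a shifted point, relative to the tilt by a block of primes.
-/

namespace Pool.Agent.U761.UX

open Filter Topology MeasureTheory Complex
open Pool.Agent.Q97.UM Pool.Agent.Q247.UM Pool.Agent.Q241.UM Pool.Agent.U761.SZ
open Pool.Agent.Q149.UM (zp norm_zp_le norm_zp_cube sum_le_Z3 Z3 Z3_nonneg)

noncomputable section

/-- the field of a block of primes -/
def Fl (β : ℕ → ℝ) (J : Finset ℕ) (s : ℝ) : ℝ := -∑ p ∈ J, β p * Real.sin (s * Real.log p)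

/-- the coefficients of the tilt -/
def qt (μ : ℝ) (β : ℕ → ℝ) (J : Finset ℕ) (h : ℝ) (p : ℕ) : ℂ :=
  if p ∈ J then ((μ * β p * Real.sqrt p : ℝ) : ℂ) * (-I) * (p : ℂ) ^ (-(h * I)) else 0

theorem cpow_nrm {p : ℕ} (hp : 0 < p) (h : ℝ) : ‖(p : ℂ) ^ (-(h * I))‖ = 1 := by
  rw [Complex.norm_natCast_cpow_of_pos hp]
  simp

theorem zp_form {p : ℕ} (hp : 0 < p) (s : ℝ) : zp p s = (((Real.sqrt p)⁻¹ : ℝ) : ℂ) *
    ((Real.cos (s * Real.log p) : ℝ) - (Real.sin (s * Real.log p) : ℝ) * I) := by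
  have hp0 : (p : ℂ) ≠ 0 := by exact_mod_cast hp.ne'
  have hpr : (0 : ℝ) < p := by exact_mod_cast hp
  unfold zp
  have e1 : (-(1 / 2 + s * I) : ℂ) = ((-(1 / 2) : ℝ) : ℂ) + (((-s : ℝ) : ℂ) * I) := by push_cast; ring
  rw [e1, cpow_add _ _ hp0]
  congr 1
  · rw [show (p : ℂ) = ((p : ℝ) : ℂ) by push_cast; rfl, ← Complex.ofReal_cpow hpr.le, Real.rpow_neg hpr.le,
      ← Real.sqrt_eq_rpow]
  · rw [Complex.cpow_def_of_ne_zero hp0, ← Complex.natCast_log]
    have e2 : (Real.log p : ℂ) * (((-s : ℝ) : ℂ) * I) = ((-(s * Real.log p) : ℝ) : ℂ) * I := by push_cast; ring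
    rw [e2, Complex.exp_mul_I, ← Complex.ofReal_cos, ← Complex.ofReal_sin, Real.cos_neg, Real.sin_neg]
    push_cast
    ring

theorem dp_qt (μ : ℝ) (β : ℕ → ℝ) {J : Finset ℕ} {Y : ℕ} (hJ : ∀ p ∈ J, p.Prime ∧ p ≤ Y) (h t : ℝ) :
    (dp Y (qt μ β J h) t).re = μ * Fl β J (t + h) := by
  classical
  have h1 : dp Y (qt μ β J h) t = ∑ p ∈ J, ((μ * β p * Real.sqrt p : ℝ) : ℂ) * (-I) * zp p (t + h) := by
    unfold dp
    have hsub : J ⊆ Finset.Icc 1 Y := fun p hp => Finset.mem_Icc.2 ⟨(hJ p hp).1.one_lt.le, (hJ p hp).2⟩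
    rw [← Finset.sum_subset hsub]
    · refine Finset.sum_congr rfl fun p hp => ?_
      unfold qt
      rw [if_pos hp, zp_shift (hJ p hp).1.pos]
      unfold zp
      ring
    · intro p _ hp
      unfold qt
      rw [if_neg hp, zero_mul]
  rw [h1, Complex.re_sum]
  unfold Fl
  rw [mul_neg, Finset.mul_sum, ← Finset.sum_neg_distrib]
  refine Finset.sum_congr rfl fun p hp => ?_
  have hp0 : 0 < p := (hJ p hp).1.pos
  have hs : Real.sqrt p ≠ 0 := (Real.sqrt_pos.2 (by exact_mod_cast hp0)).ne'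
  rw [zp_form hp0]
  have e : ((μ * β p * Real.sqrt p : ℝ) : ℂ) * (-I) * ((((Real.sqrt p)⁻¹ : ℝ) : ℂ) *
      ((Real.cos ((t + h) * Real.log p) : ℝ) - (Real.sin ((t + h) * Real.log p) : ℝ) * I)) =
      ((-(μ * β p * Real.sin ((t + h) * Real.log p)) : ℝ) : ℂ) + ((-(μ * β p * Real.cos ((t + h) * Real.log p)) : ℝ) : ℂ) * I := by
    have e1 : ((Real.sqrt p : ℝ) : ℂ) * (((Real.sqrt p)⁻¹ : ℝ) : ℂ) = 1 := by
      rw [← Complex.ofReal_mul, mul_inv_cancel₀ hs, Complex.ofReal_one]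
    push_cast at e1 ⊢
    linear_combination (-((μ : ℂ) * β p * (Complex.cos ((t + h) * Complex.log p) * I)) +
      (μ : ℂ) * β p * Complex.sin ((t + h) * Complex.log p) * I ^ 2) * e1 +
      (μ : ℂ) * β p * Complex.sin ((t + h) * Complex.log p) * Complex.I_sq
  rw [e, Complex.add_re, Complex.ofReal_re, Complex.re_ofReal_mul, Complex.I_re]
  ring

theorem qt_norm {μ : ℝ} {β : ℕ → ℝ} {J : Finset ℕ} {h : ℝ} {p : ℕ} (hp : p ∈ J) (hpp : p.Prime) :
    ‖qt μ β J h p‖ = |μ * β p * Real.sqrt p| := by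
  unfold qt
  rw [if_pos hp, norm_mul, norm_mul, norm_neg, Complex.norm_I, cpow_nrm hpp.pos, Complex.norm_real, Real.norm_eq_abs]
  ring

theorem PS_split {y X : ℕ} (h : y ≤ X) (c : ℕ → ℂ) (t : ℝ) : PS X c t - PS y c t = PS X (fun p => if p ≤ y then 0 else c p) t := by
  classical
  unfold PS
  have hsub : (Finset.Icc 1 y).filter Nat.Prime ⊆ (Finset.Icc 1 X).filter Nat.Prime :=
    Finset.filter_subset_filter _ (Finset.Icc_subset_Icc_right h)
  rw [← Finset.sum_sdiff hsub, add_sub_cancel_right]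
  have h1 : ∑ p ∈ (Finset.Icc 1 X).filter Nat.Prime, (if p ≤ y then 0 else c p) * zp p t =
      ∑ p ∈ (Finset.Icc 1 X).filter Nat.Prime \ (Finset.Icc 1 y).filter Nat.Prime, (if p ≤ y then 0 else c p) * zp p t := by
    symm
    refine Finset.sum_subset Finset.sdiff_subset fun p hp hp' => ?_
    rw [Finset.mem_sdiff, not_and, not_not] at hp'
    have := hp' hp
    rw [Finset.mem_filter, Finset.mem_Icc] at this
    rw [if_pos this.1.2, zero_mul]
  rw [h1]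
  refine Finset.sum_congr rfl fun p hp => ?_
  rw [Finset.mem_sdiff, Finset.mem_filter, Finset.mem_filter, Finset.mem_Icc, Finset.mem_Icc] at hp
  rw [if_neg]
  intro h2
  exact hp.2 ⟨⟨hp.1.1.1, h2⟩, hp.1.2⟩

theorem SS_split {y X : ℕ} (h : y ≤ X) (c : ℕ → ℂ) (t : ℝ) : SS X c t - SS y c t = SS X (fun p => if p ≤ y then 0 else c p) t := by
  classical
  unfold Pool.Agent.U761.SZ.SS
  have hsub : (Finset.Icc 1 y).filter Nat.Prime ⊆ (Finset.Icc 1 X).filter Nat.Prime :=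
    Finset.filter_subset_filter _ (Finset.Icc_subset_Icc_right h)
  rw [← Finset.sum_sdiff hsub, add_sub_cancel_right]
  have h1 : ∑ p ∈ (Finset.Icc 1 X).filter Nat.Prime, (if p ≤ y then 0 else c p) * zp p t ^ 2 =
      ∑ p ∈ (Finset.Icc 1 X).filter Nat.Prime \ (Finset.Icc 1 y).filter Nat.Prime, (if p ≤ y then 0 else c p) * zp p t ^ 2 := by
    symm
    refine Finset.sum_subset Finset.sdiff_subset fun p hp hp' => ?_
    rw [Finset.mem_sdiff, not_and, not_not] at hp'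
    have := hp' hp
    rw [Finset.mem_filter, Finset.mem_Icc] at this
    rw [if_pos this.1.2, zero_mul]
  rw [h1]
  refine Finset.sum_congr rfl fun p hp => ?_
  rw [Finset.mem_sdiff, Finset.mem_filter, Finset.mem_filter, Finset.mem_Icc, Finset.mem_Icc] at hp
  rw [if_neg]
  intro h2
  exact hp.2 ⟨⟨hp.1.1.1, h2⟩, hp.1.2⟩

/-- **the main relative estimate** -/
theorem rel_main : ∃ θ δ C : ℝ, 0 < θ ∧ θ ≤ 1 / 16 ∧ 0 < δ ∧ δ ≤ 1 / 16 ∧ 0 ≤ C ∧ ∀ᶠ T : ℝ in atTop,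
    ∀ (h μ ϑ S V S' : ℝ) (β : ℕ → ℝ) (J : Finset ℕ) (y Y K : ℕ), |h| ≤ T / 2 → |μ| ≤ 4 → 1 ≤ y → y ≤ Y → Y ≤ ⌊T ^ δ⌋₊ → 1 ≤ K →
    ((Y ^ K : ℕ) : ℝ) ≤ T ^ θ → (∀ p ∈ J, p.Prime ∧ y < p ∧ p ≤ Y) → 0 ≤ ϑ → ϑ ≤ 1 →
    (∀ p ∈ J, 1 - ϑ ≤ Real.pi * (Real.sqrt p * β p) ∧ Real.pi * (Real.sqrt p * β p) ≤ 1) →
    (∑ p ∈ (Finset.Icc 1 ⌊T ^ δ⌋₊).filter (fun p => p.Prime ∧ y < p ∧ p ∉ J), (1 : ℝ) / p ≤ S) → (∑ p ∈ J, (1 : ℝ) / p ≤ V) →
    (∑ p ∈ (Finset.Icc 1 y).filter Nat.Prime, ‖(p : ℂ) ^ (-(h * I)) - 1‖ ^ 2 / p ≤ S') →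
    (IntervalIntegrable (fun t => (aS (t + h) - (LE y (t + h)).im - Real.pi * Fl β J (t + h)) ^ 2 *
        ‖dp (Y ^ K) (te (qt μ β J h) K) t‖ ^ 2) volume T (2 * T) ∧
      ∫ t in T..(2 * T), (aS (t + h) - (LE y (t + h)).im - Real.pi * Fl β J (t + h)) ^ 2 *
        ‖dp (Y ^ K) (te (qt μ β J h) K) t‖ ^ 2 ≤ C * (1 + S + ϑ ^ 2 * V + (ϑ * V) ^ 2) * (T * Real.exp (∑ p ∈ J, ‖qt μ β J h p‖ ^ 2 / p))) ∧
    (IntervalIntegrable (fun t => ‖LE y (t + h) - LE y t‖ ^ 2 * ‖dp (Y ^ K) (te (qt μ β J h) K) t‖ ^ 2) volume T (2 * T) ∧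
      ∫ t in T..(2 * T), ‖LE y (t + h) - LE y t‖ ^ 2 * ‖dp (Y ^ K) (te (qt μ β J h) K) t‖ ^ 2 ≤
        C * (1 + S') * (T * Real.exp (∑ p ∈ J, ‖qt μ β J h p‖ ^ 2 / p))) := by
  classical
  obtain ⟨θ₀, δ₀, hθ₀, hδ₀, hTH⟩ := THH 2
  obtain ⟨δ, hδ, hδa, hδb⟩ : ∃ δ : ℝ, 0 < δ ∧ δ ≤ δ₀ ∧ δ ≤ 1 / 16 :=
    ⟨min δ₀ (1 / 16), by positivity, min_le_left _ _, min_le_right _ _⟩
  obtain ⟨θ, hθ, hθa, hθb⟩ : ∃ θ : ℝ, 0 < θ ∧ θ ≤ θ₀ ∧ θ ≤ 1 / 16 :=
    ⟨min θ₀ (1 / 16), by positivity, min_le_left _ _, min_le_right _ _⟩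
  obtain ⟨C₁, hC₁, hT⟩ := hTH δ hδ hδa
  obtain ⟨C, hC⟩ : ∃ C : ℝ, C = 4 * C₁ + 32 + 8 * (2 + 4 * 2 ^ 4) + 8 * (8 / 3 * Z3) ^ 2 := ⟨_, rfl⟩
  have hC0 : 0 ≤ C := by rw [hC]; positivity
  refine ⟨θ, δ, C, hθ, hθb, hδ, hδb, hC0, ?_⟩
  filter_upwards [hT, eventually_ge_atTop 16] with T hTT hT16
  intro h μ ϑ S V S' β J y Y K hh hμ hy hyY hYX hK hYK hJ hϑ0 hϑ1 hw hS hV hS'
  have hT0 : 0 < T := by linarith
  have hT1 : 1 ≤ T := by linarith
  obtain ⟨X, hX⟩ : ∃ X : ℕ, X = ⌊T ^ δ⌋₊ := ⟨_, rfl⟩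
  rw [← hX] at hYX hS
  have hX1 : 1 ≤ X := (hy.trans hyY).trans hYX
  have hyX : y ≤ X := hyY.trans hYX
  obtain ⟨q, hqd⟩ : ∃ q : ℕ → ℂ, q = qt μ β J h := ⟨_, rfl⟩
  rw [← hqd]
  have hJp : ∀ p ∈ J, p.Prime := fun p hp => (hJ p hp).1
  have hq0 : ∀ p, p ∉ J → q p = 0 := fun p hp => by rw [hqd]; unfold qt; rw [if_neg hp]
  have hq : ∀ m, q m ≠ 0 → m.Prime ∧ m ∈ J := by
    intro m hm
    by_cases h : m ∈ J
    · exact ⟨hJp m h, h⟩
    · exact absurd (hq0 m h) hm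
  have hπ := Real.pi_gt_three
  have hqA : ∀ m, ‖q m‖ ≤ 2 := by
    intro m
    by_cases hm : m ∈ J
    · rw [hqd, qt_norm hm (hJp m hm)]
      obtain ⟨w1, w2⟩ := hw m hm
      have e : μ * β m * Real.sqrt m = μ * (Real.sqrt m * β m) := by ring
      rw [e, abs_mul]
      have h1 : |Real.sqrt m * β m| ≤ 1 / 3 := by
        have h2 : 0 ≤ Real.sqrt m * β m := by
          by_contra hcon
          push Not at hcon
          nlinarith
        rw [abs_of_nonneg h2]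
        nlinarith
      calc |μ| * |Real.sqrt m * β m| ≤ 4 * (1 / 3) := mul_le_mul hμ h1 (abs_nonneg _) (by norm_num)
        _ ≤ 2 := by norm_num
    · rw [hq0 m hm, norm_zero]
      norm_num
  have hqY : ∀ m, Y < m → q m = 0 := by
    intro m hm
    refine hq0 m fun h => ?_
    exact absurd (hJ m h).2.2 (not_le.2 hm)
  have hY1 : 1 ≤ Y := hy.trans hyY
  have hN : ∀ m, te q K m ≠ 0 → 1 ≤ m ∧ m ≤ Y ^ K := te_supp hY1 hqY fun m hm => (hq m hm).1
  obtain ⟨N, hNd⟩ : ∃ N : ℕ, N = Y ^ K := ⟨_, rfl⟩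
  rw [← hNd] at hN hYK ⊢
  have hXr : (X : ℝ) ≤ T ^ (1 / 16 : ℝ) := by
    rw [hX]
    exact (Nat.floor_le (by positivity)).trans (Real.rpow_le_rpow_of_exponent_le hT1 hδb)
  have hNr : (N : ℝ) ≤ T ^ (1 / 16 : ℝ) := hYK.trans (Real.rpow_le_rpow_of_exponent_le hT1 hθb)
  have hNθ : (N : ℝ) ≤ T ^ θ₀ := hYK.trans (Real.rpow_le_rpow_of_exponent_le hT1 hθa)
  have hlen2 : ((X ^ 2 * N : ℕ) : ℝ) ≤ T ^ (1 / 4 : ℝ) := by
    push_cast
    calc (X : ℝ) ^ 2 * N ≤ (T ^ (1 / 16 : ℝ)) ^ 2 * T ^ (1 / 16 : ℝ) :=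
          mul_le_mul (pow_le_pow_left₀ (by positivity) hXr 2) hNr (Nat.cast_nonneg _) (by positivity)
      _ = T ^ (3 / 16 : ℝ) := by
          rw [← Real.rpow_natCast, ← Real.rpow_mul hT0.le, ← Real.rpow_add hT0]
          norm_num
      _ ≤ _ := Real.rpow_le_rpow_of_exponent_le hT1 (by norm_num)
  have hyXr : (y : ℝ) ≤ X := by exact_mod_cast hyX
  have hlen2y : ((y ^ 2 * N : ℕ) : ℝ) ≤ T ^ (1 / 4 : ℝ) := by
    refine le_trans ?_ hlen2
    exact_mod_cast Nat.mul_le_mul_right N (Nat.pow_le_pow_left hyX 2)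
  obtain ⟨ρ, hρ⟩ : ∃ ρ : ℝ, ρ = Real.exp (∑ p ∈ J, ‖q p‖ ^ 2 / p) := ⟨_, rfl⟩
  have hN2 : N2 N (te q K) ≤ ρ := by rw [hρ]; exact N2_te_le hq hJp K N
  rw [← hρ]
  have hN20 : 0 ≤ N2 N (te q K) := Pool.Agent.Q97.UM.N2_nonneg _ _
  have hρ0 : 0 ≤ ρ := hN20.trans hN2
  obtain ⟨i1, i2⟩ := hTT h hh N hNθ (te q K)
  rw [← hX] at i1 i2
  -- the coefficients
  obtain ⟨c1, hc1⟩ : ∃ c1 : ℕ → ℂ, c1 = fun p : ℕ => (p : ℂ) ^ (-(h * I)) := ⟨_, rfl⟩
  obtain ⟨c2, hc2⟩ : ∃ c2 : ℕ → ℂ, c2 = fun p : ℕ => ((p : ℂ) ^ (-(h * I))) ^ 2 := ⟨_, rfl⟩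
  have hc1n : ∀ p : ℕ, 0 < p → ‖c1 p‖ = 1 := fun p hp => by rw [hc1]; exact cpow_nrm hp h
  have hLEX := fun t => LE_shift X t h
  have hLEy := fun t => LE_shift y t h
  rw [← hc1, ← hc2] at hLEX hLEy
  have hZ3 := Z3_nonneg
  constructor
  · -- the first estimate
    obtain ⟨W, hW⟩ : ∃ W : ℝ → ℂ, W = fun t => ∑ p ∈ J, ((Real.pi * (Real.sqrt p * β p) : ℝ) : ℂ) * (c1 p * zp p t) := ⟨_, rfl⟩
    obtain ⟨c, hc⟩ : ∃ c : ℕ → ℂ, c = fun p => (if p ≤ y then 0 else c1 p) -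
      (if p ∈ J then ((Real.pi * (Real.sqrt p * β p) : ℝ) : ℂ) * c1 p else 0) := ⟨_, rfl⟩
    obtain ⟨d, hd⟩ : ∃ d : ℕ → ℂ, d = fun p => (if p ≤ y then 0 else c2 p) / 2 := ⟨_, rfl⟩
    obtain ⟨Z, hZ⟩ : ∃ Z : ℝ → ℂ, Z = fun t => Lz (t + h) - LE y (t + h) - W t := ⟨_, rfl⟩
    have hd1 : ∀ n, ‖d n‖ ≤ 1 := by
      intro n
      rw [hd]
      simp only
      by_cases hn : n ≤ y
      · rw [if_pos hn]; simp
      · rw [if_neg hn, hc2, norm_div, norm_pow, cpow_nrm (by omega) h]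
        norm_num
    have hWm : Continuous W := by
      rw [hW]
      exact continuous_finsetSum _ fun p hp => continuous_const.mul (continuous_const.mul (zp_cont p (hJp p hp).pos))
    have hZm : Measurable Z := by
      rw [hZ]
      exact ((Lz_meas.comp (measurable_id.add_const h)).sub ((LE_cont y).measurable.comp (measurable_id.add_const h))).sub hWm.measurable
    have hJsub : J ⊆ (Finset.Icc 1 X).filter Nat.Prime := fun p hp => Finset.mem_filter.2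
      ⟨Finset.mem_Icc.2 ⟨(hJp p hp).one_lt.le, (hJ p hp).2.2.trans hYX⟩, hJp p hp⟩
    have hPSc : ∀ t, PS X c t = PS X c1 t - PS y c1 t - W t := by
      intro t
      rw [PS_split hyX, hW, hc]
      unfold PS
      simp only
      have h1 : ∑ p ∈ J, ((Real.pi * (Real.sqrt p * β p) : ℝ) : ℂ) * (c1 p * zp p t) =
          ∑ p ∈ (Finset.Icc 1 X).filter Nat.Prime, (if p ∈ J then ((Real.pi * (Real.sqrt p * β p) : ℝ) : ℂ) * c1 p else 0) * zp p t := by
        rw [← Finset.sum_subset hJsub]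
        · refine Finset.sum_congr rfl fun p hp => ?_
          rw [if_pos hp]
          ring
        · intro p _ hp
          rw [if_neg hp, zero_mul]
      rw [h1, ← Finset.sum_sub_distrib]
      exact Finset.sum_congr rfl fun p _ => by ring
    have hSSd : ∀ t, SS X d t = (SS X c2 t - SS y c2 t) / 2 := by
      intro t
      rw [SS_split hyX, hd]
      unfold Pool.Agent.U761.SZ.SS
      rw [Finset.sum_div]
      exact Finset.sum_congr rfl fun p _ => by ring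
    have hUZ : ∀ t, ‖Z t - (Lz (t + h) - LE X (t + h)) - PS X c t - SS X d t‖ ≤ 8 / 3 * Z3 := by
      intro t
      have e : Z t - (Lz (t + h) - LE X (t + h)) - PS X c t - SS X d t =
          (LE X (t + h) - PS X c1 t - SS X c2 t / 2) - (LE y (t + h) - PS y c1 t - SS y c2 t / 2) := by
        rw [hPSc, hSSd, hZ]
        ring
      rw [e]
      refine (norm_sub_le _ _).trans ?_
      linarith [hLEX t, hLEy t]
    have hcn : ∀ p ∈ (Finset.Icc 1 X).filter Nat.Prime, ‖c p‖ ≤ if p ∈ J then ϑ else if y < p then 1 else 0 := by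
      intro p hp
      have hp0 : 0 < p := (Finset.mem_filter.1 hp).2.pos
      rw [hc]
      simp only
      by_cases hpJ : p ∈ J
      · rw [if_pos hpJ, if_pos hpJ, if_neg (not_le.2 (hJ p hpJ).2.1)]
        have e : c1 p - ((Real.pi * (Real.sqrt p * β p) : ℝ) : ℂ) * c1 p = ((1 - Real.pi * (Real.sqrt p * β p) : ℝ) : ℂ) * c1 p := by
          push_cast; ring
        rw [e, norm_mul, hc1n p hp0, mul_one, Complex.norm_real, Real.norm_eq_abs, abs_le]
        obtain ⟨w1, w2⟩ := hw p hpJ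
        constructor <;> linarith
      · rw [if_neg hpJ, if_neg hpJ, sub_zero]
        by_cases hpy : p ≤ y
        · rw [if_pos hpy, norm_zero]
          split_ifs <;> norm_num
        · rw [if_neg hpy, if_pos (not_le.1 hpy), hc1n p hp0]
    have hSc : ∑ p ∈ (Finset.Icc 1 X).filter Nat.Prime, ‖c p‖ ^ 2 / p ≤ S + ϑ ^ 2 * V := by
      have h1 : ∀ p ∈ (Finset.Icc 1 X).filter Nat.Prime, ‖c p‖ ^ 2 / (p : ℝ) ≤
          (if y < p ∧ p ∉ J then (1 : ℝ) / p else 0) + (if p ∈ J then ϑ ^ 2 * (1 / (p : ℝ)) else 0) := by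
        intro p hp
        have h2 := hcn p hp
        have hp0 : (0 : ℝ) ≤ p := Nat.cast_nonneg p
        by_cases hpJ : p ∈ J
        · rw [if_pos hpJ] at h2
          rw [if_neg (fun h => h.2 hpJ), if_pos hpJ, zero_add, mul_one_div]
          exact div_le_div_of_nonneg_right (pow_le_pow_left₀ (norm_nonneg _) h2 2) hp0
        · rw [if_neg hpJ] at h2
          rw [if_neg hpJ, add_zero]
          by_cases hpy : y < p
          · rw [if_pos hpy] at h2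
            rw [if_pos ⟨hpy, hpJ⟩]
            refine div_le_div_of_nonneg_right ?_ hp0
            calc ‖c p‖ ^ 2 ≤ 1 ^ 2 := pow_le_pow_left₀ (norm_nonneg _) h2 2
              _ = 1 := by norm_num
          · rw [if_neg hpy] at h2
            rw [if_neg (fun h => hpy h.1)]
            have : ‖c p‖ = 0 := le_antisymm h2 (norm_nonneg _)
            rw [this]; simp
      refine (Finset.sum_le_sum h1).trans ?_
      rw [Finset.sum_add_distrib]
      refine add_le_add ?_ ?_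
      · refine le_trans (le_of_eq ?_) hS
        rw [← Finset.sum_filter, Finset.filter_filter]
      · rw [← Finset.sum_filter]
        refine le_trans (Finset.sum_le_sum_of_subset_of_nonneg (t := J) ?_ fun p _ _ => by positivity) ?_
        · intro p hp
          exact (Finset.mem_filter.1 hp).2
        · rw [← Finset.mul_sum]
          exact mul_le_mul_of_nonneg_left hV (sq_nonneg ϑ)
    have hRc : ∑ p ∈ (Finset.Icc 1 X).filter Nat.Prime, ‖c p‖ * ‖q p‖ / p ≤ 2 * (ϑ * V) := by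
      have h1 : ∀ p ∈ (Finset.Icc 1 X).filter Nat.Prime, ‖c p‖ * ‖q p‖ / (p : ℝ) ≤ if p ∈ J then 2 * ϑ * (1 / (p : ℝ)) else 0 := by
        intro p hp
        have h2 := hcn p hp
        have hp0 : (0 : ℝ) ≤ p := Nat.cast_nonneg p
        by_cases hpJ : p ∈ J
        · rw [if_pos hpJ] at h2 ⊢
          rw [mul_one_div]
          refine div_le_div_of_nonneg_right ?_ hp0
          calc ‖c p‖ * ‖q p‖ ≤ ϑ * 2 := mul_le_mul h2 (hqA p) (norm_nonneg _) hϑ0
            _ = 2 * ϑ := by ring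
        · rw [if_neg hpJ, hq0 p hpJ, norm_zero, mul_zero, zero_div]
      refine (Finset.sum_le_sum h1).trans ?_
      rw [← Finset.sum_filter]
      refine le_trans (Finset.sum_le_sum_of_subset_of_nonneg (t := J) ?_ fun p _ _ => by positivity) ?_
      · intro p hp
        exact (Finset.mem_filter.1 hp).2
      · rw [← Finset.mul_sum]
        calc 2 * ϑ * ∑ p ∈ J, (1 : ℝ) / p ≤ 2 * ϑ * V := mul_le_mul_of_nonneg_left hV (by linarith)
          _ = _ := by ring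
    have key := gen_rel (A := 2) (P := J) hT16 (by norm_num) hq hqA hd1 hX1 hN hlen2 hC₁ hSc hRc hZm hUZ i1 i2
    obtain ⟨k1, k2⟩ := key
    have hZim : ∀ t, (Z t).im = aS (t + h) - (LE y (t + h)).im - Real.pi * Fl β J (t + h) := by
      intro t
      rw [hZ]
      simp only
      rw [Complex.sub_im, Complex.sub_im]
      have h1 : (Lz (t + h)).im = aS (t + h) := rfl
      have h2 : (W t).im = Real.pi * Fl β J (t + h) := by
        rw [hW]
        simp only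
        rw [Complex.im_sum]
        unfold Fl
        rw [mul_neg, Finset.mul_sum, ← Finset.sum_neg_distrib]
        refine Finset.sum_congr rfl fun p hp => ?_
        have hp0 : 0 < p := (hJp p hp).pos
        have hs : Real.sqrt p ≠ 0 := (Real.sqrt_pos.2 (by exact_mod_cast hp0)).ne'
        have e1 : c1 p * zp p t = zp p (t + h) := by rw [hc1]; exact (zp_shift hp0 t h).symm
        rw [e1, zp_form hp0, Complex.im_ofReal_mul, Complex.im_ofReal_mul]
        have e2 : (((Real.cos ((t + h) * Real.log p) : ℝ) : ℂ) - ((Real.sin ((t + h) * Real.log p) : ℝ) : ℂ) * I).im =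
            -Real.sin ((t + h) * Real.log p) := by
          rw [Complex.sub_im, Complex.ofReal_im, Complex.im_ofReal_mul, Complex.I_im]
          ring
        rw [e2]
        field_simp
      rw [h1, h2]
    have hle : ∀ t, (aS (t + h) - (LE y (t + h)).im - Real.pi * Fl β J (t + h)) ^ 2 * ‖dp N (te q K) t‖ ^ 2 ≤
        ‖Z t‖ ^ 2 * ‖dp N (te q K) t‖ ^ 2 := by
      intro t
      refine mul_le_mul_of_nonneg_right ?_ (sq_nonneg _)
      rw [← hZim, ← sq_abs]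
      exact pow_le_pow_left₀ (abs_nonneg _) (Complex.abs_im_le_norm _) 2
    have hEc : Continuous (dp N (te q K)) := (Pool.Agent.Q84.UM.t_DPM.2.2 _ _ 0).2
    have hmeas : Measurable fun t => (aS (t + h) - (LE y (t + h)).im - Real.pi * Fl β J (t + h)) ^ 2 * ‖dp N (te q K) t‖ ^ 2 := by
      have e : (fun t => (aS (t + h) - (LE y (t + h)).im - Real.pi * Fl β J (t + h)) ^ 2 * ‖dp N (te q K) t‖ ^ 2) =
          fun t => (Z t).im ^ 2 * ‖dp N (te q K) t‖ ^ 2 := by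
        funext t
        rw [hZim]
      rw [e]
      exact ((Complex.measurable_im.comp hZm).pow_const 2).mul (hEc.norm.pow 2).measurable
    have hInt : IntervalIntegrable (fun t => (aS (t + h) - (LE y (t + h)).im - Real.pi * Fl β J (t + h)) ^ 2 * ‖dp N (te q K) t‖ ^ 2)
        volume T (2 * T) := by
      refine k1.mono_fun' hmeas.aestronglyMeasurable (Eventually.of_forall fun t => ?_)
      show ‖(aS (t + h) - (LE y (t + h)).im - Real.pi * Fl β J (t + h)) ^ 2 * ‖dp N (te q K) t‖ ^ 2‖ ≤ _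
      rw [Real.norm_of_nonneg (by positivity)]
      exact hle t
    refine ⟨hInt, ?_⟩
    have k3 := intervalIntegral.integral_mono_on (by linarith) hInt k1 fun t _ => hle t
    refine k3.trans (k2.trans ?_)
    have hS0 : 0 ≤ S := le_trans (Finset.sum_nonneg fun p _ => by positivity) hS
    have hV0 : 0 ≤ V := le_trans (Finset.sum_nonneg fun p _ => by positivity) hV
    have hTN : T * N2 N (te q K) ≤ T * ρ := mul_le_mul_of_nonneg_left hN2 hT0.le
    have hco : 4 * C₁ + 8 * (S + ϑ ^ 2 * V + (2 * (ϑ * V)) ^ 2) + 8 * (2 + 4 * 2 ^ 4) + 8 * (8 / 3 * Z3) ^ 2 ≤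
        C * (1 + S + ϑ ^ 2 * V + (ϑ * V) ^ 2) := by
      have g1 : 32 ≤ C := by
        rw [hC]
        have : 0 ≤ 8 * (8 / 3 * Z3) ^ 2 := by positivity
        linarith
      have g2 : 0 ≤ S + ϑ ^ 2 * V + (ϑ * V) ^ 2 := by positivity
      have g3 : 32 * (S + ϑ ^ 2 * V + (ϑ * V) ^ 2) ≤ C * (S + ϑ ^ 2 * V + (ϑ * V) ^ 2) := mul_le_mul_of_nonneg_right g1 g2
      have g4 : 8 * (S + ϑ ^ 2 * V + (2 * (ϑ * V)) ^ 2) ≤ 32 * (S + ϑ ^ 2 * V + (ϑ * V) ^ 2) := by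
        have : 0 ≤ ϑ ^ 2 * V := by positivity
        nlinarith
      rw [hC] at g3 ⊢
      nlinarith
    have hpos : 0 ≤ 4 * C₁ + 8 * (S + ϑ ^ 2 * V + (2 * (ϑ * V)) ^ 2) + 8 * (2 + 4 * 2 ^ 4) + 8 * (8 / 3 * Z3) ^ 2 := by positivity
    exact mul_le_mul hco hTN (mul_nonneg hT0.le hN20) (hpos.trans hco)
  · -- the second estimate
    obtain ⟨c, hc⟩ : ∃ c : ℕ → ℂ, c = fun p => c1 p - 1 := ⟨_, rfl⟩
    obtain ⟨d, hd⟩ : ∃ d : ℕ → ℂ, d = fun p => if 0 < p then (c2 p - 1) / 2 else 0 := ⟨_, rfl⟩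
    obtain ⟨Z, hZ⟩ : ∃ Z : ℝ → ℂ, Z = fun t => LE y (t + h) - LE y t := ⟨_, rfl⟩
    have hd1 : ∀ n, ‖d n‖ ≤ 1 := by
      intro n
      rw [hd]
      simp only
      by_cases hn : 0 < n
      · rw [if_pos hn, norm_div, Complex.norm_ofNat, div_le_one (by norm_num)]
        refine (norm_sub_le _ _).trans ?_
        rw [hc2, norm_pow, cpow_nrm hn h]
        norm_num
      · rw [if_neg hn]; simp
    have hZm : Measurable Z := by
      rw [hZ]
      exact ((LE_cont y).measurable.comp (measurable_id.add_const h)).sub (LE_cont y).measurable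
    have hone : ∀ p : ℕ, (fun p : ℕ => (p : ℂ) ^ (-(((0 : ℝ) : ℂ) * I))) p = 1 := by
      intro p
      simp
    have hLE0 : ∀ t, ‖LE y t - PS y (fun _ => 1) t - SS y (fun _ => 1) t / 2‖ ≤ 4 / 3 * Z3 := by
      intro t
      have h1 := LE_shift y t 0
      simp only [Complex.ofReal_zero, zero_mul, neg_zero, Complex.cpow_zero, one_pow, add_zero] at h1
      exact h1
    have hPSc : ∀ t, PS y c t = PS y c1 t - PS y (fun _ => 1) t := by
      intro t
      rw [hc]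
      unfold PS
      rw [← Finset.sum_sub_distrib]
      exact Finset.sum_congr rfl fun p _ => by ring
    have hSSd : ∀ t, SS y d t = (SS y c2 t - SS y (fun _ => 1) t) / 2 := by
      intro t
      rw [hd]
      unfold Pool.Agent.U761.SZ.SS
      rw [← Finset.sum_sub_distrib, Finset.sum_div]
      refine Finset.sum_congr rfl fun p hp => ?_
      simp only [if_pos (Finset.mem_filter.1 hp).2.pos]
      ring
    have hUZ : ∀ t, ‖Z t - (fun _ => (0 : ℂ)) t - PS y c t - SS y d t‖ ≤ 8 / 3 * Z3 := by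
      intro t
      have e : Z t - (fun _ => (0 : ℂ)) t - PS y c t - SS y d t =
          (LE y (t + h) - PS y c1 t - SS y c2 t / 2) - (LE y t - PS y (fun _ => 1) t - SS y (fun _ => 1) t / 2) := by
        rw [hPSc, hSSd, hZ]
        ring
      rw [e]
      refine (norm_sub_le _ _).trans ?_
      linarith [hLE0 t, hLEy t]
    have hSc : ∑ p ∈ (Finset.Icc 1 y).filter Nat.Prime, ‖c p‖ ^ 2 / p ≤ S' := by
      rw [hc, hc1]
      exact hS'
    have hRc : ∑ p ∈ (Finset.Icc 1 y).filter Nat.Prime, ‖c p‖ * ‖q p‖ / p ≤ 0 := by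
      refine le_of_eq (Finset.sum_eq_zero fun p hp => ?_)
      have hpJ : p ∉ J := by
        intro h1
        have h2 := (hJ p h1).2.1
        have h3 := (Finset.mem_Icc.1 (Finset.mem_filter.1 hp).1).2
        omega
      rw [hq0 p hpJ, norm_zero, mul_zero, zero_div]
    have key := gen_rel (A := 2) (P := J) (C₁ := 0) (U := fun _ => (0 : ℂ)) hT16 (by norm_num) hq hqA hd1 hy hN hlen2y le_rfl hSc hRc hZm hUZ
      (by simp) (by simp)
    obtain ⟨k1, k2⟩ := key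
    rw [hZ] at k1 k2
    refine ⟨k1, k2.trans ?_⟩
    have hS0 : 0 ≤ S' := le_trans (Finset.sum_nonneg fun p _ => by positivity) hS'
    have hTN : T * N2 N (te q K) ≤ T * ρ := mul_le_mul_of_nonneg_left hN2 hT0.le
    have hco : 4 * 0 + 8 * (S' + 0 ^ 2) + 8 * (2 + 4 * 2 ^ 4) + 8 * (8 / 3 * Z3) ^ 2 ≤ C * (1 + S') := by
      have g1 : 32 ≤ C := by
        rw [hC]
        have : 0 ≤ 8 * (8 / 3 * Z3) ^ 2 := by positivity
        linarith
      have g3 : 32 * S' ≤ C * S' := mul_le_mul_of_nonneg_right g1 hS0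
      rw [hC] at g3 ⊢
      nlinarith
    have hpos : 0 ≤ 4 * 0 + 8 * (S' + 0 ^ 2) + 8 * (2 + 4 * 2 ^ 4) + 8 * (8 / 3 * Z3) ^ 2 := by positivity
    exact mul_le_mul hco hTN (mul_nonneg hT0.le hN20) (hpos.trans hco)

end

end Pool.Agent.U761.UX
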