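import Pool.Agent.U761.SZ.LSB

set_option autoImplicit false

/-!
U761.UX: the mean square of the coefficients of the truncated exponential, and sums over primes relative to it.
-/

namespace Pool.Agent.U761.UX

open Filter Topology MeasureTheory Complex
open Pool.Agent.Q97.UM Pool.Agent.Q247.UM Pool.Agent.Q241.UM Pool.Agent.U761.SZ
open Pool.Agent.Q149.UM (zp norm_zp_le norm_zp_cube sum_le_Z3 Z3 Z3_nonneg)

noncomputable section

theorem te_up1 {q : ℕ → ℂ} (hq : ∀ n, q n ≠ 0 → n.Prime) {K p m : ℕ} (hp : p.Prime) (hm : m ≠ 0) :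
    ‖te q K (p * m)‖ ≤ ‖q p‖ * ‖te q K m‖ := by
  have h := te_up_le hq (K := K) hp hm
  have h1 : (0 : ℝ) ≤ m.factorization p := Nat.cast_nonneg _
  have h2 := norm_nonneg (te q K (p * m))
  nlinarith [mul_nonneg h1 h2]

/-- sums over primes relative to a truncated exponential -/
theorem PS_rel {T : ℝ} (hT : 16 ≤ T) {q c : ℕ → ℂ} (hq : ∀ n, q n ≠ 0 → n.Prime) {K N X : ℕ} (hX : 1 ≤ X)
    (hN : ∀ n, te q K n ≠ 0 → 1 ≤ n ∧ n ≤ N) (hlen : ((X * N : ℕ) : ℝ) ≤ T ^ (1 / 4 : ℝ)) {S R : ℝ}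
    (hS : ∑ p ∈ (Finset.Icc 1 X).filter Nat.Prime, ‖c p‖ ^ 2 / p ≤ S)
    (hR : ∑ p ∈ (Finset.Icc 1 X).filter Nat.Prime, ‖c p‖ * ‖q p‖ / p ≤ R) :
    ∫ t in T..(2 * T), ‖PS X c t * dp N (te q K) t‖ ^ 2 ≤ 2 * T * ((S + R ^ 2) * N2 N (te q K)) := by
  classical
  have h0 : ∀ t, PS X c t * dp N (te q K) t = dp (X * N) (fun n => ∑ p ∈ (Finset.Icc 1 X).filter Nat.Prime, c p * Ed (te q K) p n - 0 * te q K n) t := by
    intro t
    have h := PS_mul (c := c) hX hN (le_refl (X * N)) 0 t
    rw [sub_zero] at h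
    exact h
  simp only [h0]
  refine ((Pool.Agent.Q84.UM.t_MVL T hT (X * N) hlen _).2).trans (mul_le_mul_of_nonneg_left ?_ (by linarith))
  obtain ⟨D, hD⟩ : ∃ D : Finset ℕ, D = (Finset.Icc 1 X).filter Nat.Prime := ⟨_, rfl⟩
  rw [← hD] at hS hR ⊢
  have hDp : ∀ p ∈ D, p.Prime := fun p hp => by rw [hD] at hp; exact (Finset.mem_filter.1 hp).2
  have hDX : ∀ p ∈ D, p ≤ X := fun p hp => by rw [hD] at hp; exact (Finset.mem_Icc.1 (Finset.mem_filter.1 hp).1).2
  have h1 := con_ineq (e := te q K) (c := c) hN (fun p hp => (hDp p hp).one_lt.le) hDX hX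
    (fun p hp p' hp' hne => (Nat.coprime_primes (hDp p hp) (hDp p' hp')).2 hne) (le_refl (X * N)) 0
  have hn0 : 0 ≤ N2 N (te q K) := Pool.Agent.Q97.UM.N2_nonneg _ _
  have hR0 : 0 ≤ R := le_trans (Finset.sum_nonneg fun p _ => by positivity) hR
  have h2 : N2 (X * N) (fun n => ∑ p ∈ D, c p * Ed (te q K) p n - 0 * te q K n) =
      ∑ n ∈ Finset.Icc 1 (X * N), ‖∑ d ∈ D, c d * Ed (te q K) d n - 0 * te q K n‖ ^ 2 * (1 / (n : ℝ)) := by
    unfold N2
    exact Finset.sum_congr rfl fun n _ => by rw [mul_one_div]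
  rw [h2]
  refine h1.trans ?_
  rw [add_mul]
  refine add_le_add (mul_le_mul_of_nonneg_right hS hn0) ?_
  unfold N2
  rw [Finset.mul_sum]
  refine Finset.sum_le_sum fun m hm => ?_
  have hm0 : m ≠ 0 := by rw [Finset.mem_Icc] at hm; omega
  have h3 : ‖∑ d ∈ D, ((starRingEnd ℂ) (c d) / d) * te q K (d * m) - (starRingEnd ℂ) 0 * te q K m‖ ≤ R * ‖te q K m‖ := by
    rw [map_zero, zero_mul, sub_zero]
    refine (norm_sum_le _ _).trans ?_
    have h5 := mul_le_mul_of_nonneg_right hR (norm_nonneg (te q K m))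
    rw [Finset.sum_mul] at h5
    refine le_trans (Finset.sum_le_sum fun d hd => ?_) h5
    have hd0 : (0 : ℝ) < d := by exact_mod_cast (hDp d hd).pos
    rw [norm_mul, norm_div, RCLike.norm_conj, Complex.norm_natCast]
    have h4 := te_up1 hq (K := K) (hDp d hd) hm0
    calc ‖c d‖ / d * ‖te q K (d * m)‖ ≤ ‖c d‖ / d * (‖q d‖ * ‖te q K m‖) :=
          mul_le_mul_of_nonneg_left h4 (by positivity)
      _ = _ := by ring
  calc ‖∑ d ∈ D, ((starRingEnd ℂ) (c d) / d) * te q K (d * m) - (starRingEnd ℂ) 0 * te q K m‖ ^ 2 * (1 / (m : ℝ)) ≤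
      (R * ‖te q K m‖) ^ 2 * (1 / (m : ℝ)) := mul_le_mul_of_nonneg_right (pow_le_pow_left₀ (norm_nonneg _) h3 2) (by positivity)
    _ = R ^ 2 * (‖te q K m‖ ^ 2 / m) := by ring

/-- one layer -/
theorem layer {q : ℕ → ℂ} {P : Finset ℕ} (hq : ∀ n, q n ≠ 0 → n.Prime ∧ n ∈ P) (hP : ∀ p ∈ P, p.Prime) {K N : ℕ} (r : ℕ) :
    ((r : ℝ) + 1) * ∑ m ∈ Finset.Icc 1 N, (if ArithmeticFunction.cardFactors m = r + 1 then ‖te q K m‖ ^ 2 / m else 0) ≤
      (∑ p ∈ P, ‖q p‖ ^ 2 / p) * ∑ m ∈ Finset.Icc 1 N, (if ArithmeticFunction.cardFactors m = r then ‖te q K m‖ ^ 2 / m else 0) := by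
  classical
  have hq' : ∀ n, q n ≠ 0 → n.Prime := fun n h => (hq n h).1
  obtain ⟨f, hf⟩ : ∃ f : ℕ → ℕ → ℝ, f = fun r m => if ArithmeticFunction.cardFactors m = r then ‖te q K m‖ ^ 2 / m else 0 := ⟨_, rfl⟩
  have hf0 : ∀ r m, 0 ≤ f r m := by
    intro r m
    rw [hf]
    simp only
    split_ifs
    · positivity
    · exact le_rfl
  -- the exponents are on `P`
  have h1 : ∀ m ∈ Finset.Icc 1 N, ((r : ℝ) + 1) * f (r + 1) m ≤ ∑ p ∈ P, (m.factorization p : ℝ) ^ 2 * f (r + 1) m := by
    intro m hm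
    have hm0 : m ≠ 0 := by rw [Finset.mem_Icc] at hm; omega
    by_cases hΩ : ArithmeticFunction.cardFactors m = r + 1
    · by_cases ht : te q K m = 0
      · have : f (r + 1) m = 0 := by
          rw [hf]; simp only; rw [if_pos hΩ, ht, norm_zero]; simp
        rw [this]; simp
      · have hsub : m.primeFactors ⊆ P := by
          intro p hp
          have hpp := Nat.prime_of_mem_primeFactors hp
          by_contra hpP
          have hq0 : q p = 0 := by
            by_contra h
            exact hpP (hq p h).2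
          obtain ⟨m', rfl⟩ := Nat.dvd_of_mem_primeFactors hp
          have hm' : m' ≠ 0 := fun h => hm0 (by rw [h, mul_zero])
          have h2 := te_up1 hq' (K := K) hpp hm'
          rw [hq0, norm_zero, zero_mul] at h2
          exact ht (norm_le_zero_iff.1 h2)
        have h2 : ((r : ℝ) + 1) ≤ ∑ p ∈ P, (m.factorization p : ℝ) ^ 2 := by
          have h3 : ((r : ℝ) + 1) = ∑ p ∈ m.primeFactors, (m.factorization p : ℝ) := by
            have h4 : ArithmeticFunction.cardFactors m = m.factorization.sum fun _ k => k := ArithmeticFunction.cardFactors_eq_sum_factorization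
            rw [hΩ] at h4
            have h5 : ((r + 1 : ℕ) : ℝ) = ((∑ p ∈ m.primeFactors, m.factorization p : ℕ) : ℝ) := by
              rw [h4]
              rfl
            push_cast at h5
            exact h5
          rw [h3]
          refine (Finset.sum_le_sum fun p _ => ?_).trans (Finset.sum_le_sum_of_subset_of_nonneg hsub fun p _ _ => sq_nonneg _)
          rcases Nat.eq_zero_or_pos (m.factorization p) with h | h
          · rw [h]; simp
          · have : (1 : ℝ) ≤ m.factorization p := by exact_mod_cast h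
            nlinarith
        rw [← Finset.sum_mul]
        exact mul_le_mul_of_nonneg_right h2 (hf0 _ _)
    · have : f (r + 1) m = 0 := by
        rw [hf]; simp only; rw [if_neg hΩ]
      rw [this]; simp
  have h2 : ∀ p ∈ P, ∑ m ∈ Finset.Icc 1 N, (m.factorization p : ℝ) ^ 2 * f (r + 1) m ≤
      ‖q p‖ ^ 2 / p * ∑ m ∈ Finset.Icc 1 N, f r m := by
    intro p hp
    have hpp := hP p hp
    have hp0 : (0 : ℝ) < p := by exact_mod_cast hpp.pos
    have hA : ∑ m ∈ Finset.Icc 1 N, (m.factorization p : ℝ) ^ 2 * f (r + 1) m ≤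
        ∑ m ∈ (Finset.Icc 1 N).image (fun m => p * m), (m.factorization p : ℝ) ^ 2 * f (r + 1) m := by
      rw [← Finset.sum_filter_add_sum_filter_not (Finset.Icc 1 N) (fun m => p ∣ m)]
      have e1 : ∑ m ∈ (Finset.Icc 1 N).filter (fun m => ¬ p ∣ m), (m.factorization p : ℝ) ^ 2 * f (r + 1) m = 0 := by
        refine Finset.sum_eq_zero fun m hm => ?_
        rw [Nat.factorization_eq_zero_of_not_dvd (Finset.mem_filter.1 hm).2]
        simp
      rw [e1, add_zero]
      refine Finset.sum_le_sum_of_subset_of_nonneg ?_ fun m _ _ => mul_nonneg (sq_nonneg _) (hf0 _ _)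
      intro m hm
      obtain ⟨h3, h4⟩ := Finset.mem_filter.1 hm
      rw [Finset.mem_Icc] at h3
      obtain ⟨k, rfl⟩ := h4
      refine Finset.mem_image.2 ⟨k, ?_, rfl⟩
      rw [Finset.mem_Icc]
      constructor
      · rcases Nat.eq_zero_or_pos k with h | h
        · rw [h] at h3; omega
        · exact h
      · exact le_trans (Nat.le_mul_of_pos_left k hpp.pos) h3.2
    refine hA.trans ?_
    rw [Finset.sum_image (fun a _ b _ hab => Nat.eq_of_mul_eq_mul_left hpp.pos hab), Finset.mul_sum]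
    refine Finset.sum_le_sum fun m hm => ?_
    have hm1 : 1 ≤ m := (Finset.mem_Icc.1 hm).1
    have hm0 : m ≠ 0 := by omega
    have hmr : (0 : ℝ) < m := by exact_mod_cast hm1
    have hΩ : ArithmeticFunction.cardFactors (p * m) = ArithmeticFunction.cardFactors m + 1 := by
      rw [ArithmeticFunction.cardFactors_mul hpp.ne_zero hm0, ArithmeticFunction.cardFactors_apply_prime hpp]
      omega
    rw [hf]
    simp only
    rw [hΩ]
    by_cases h : ArithmeticFunction.cardFactors m = r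
    · rw [if_pos (by omega), if_pos h]
      have h3 := te_up_le hq' (K := K) hpp hm0
      have h4 : ((p * m).factorization p : ℝ) = (m.factorization p : ℝ) + 1 := by
        rw [Nat.factorization_mul hpp.ne_zero hm0, Finsupp.add_apply, hpp.factorization_self]
        push_cast
        ring
      rw [h4]
      have h5 : (((m.factorization p : ℝ) + 1) * ‖te q K (p * m)‖) ^ 2 ≤ (‖q p‖ * ‖te q K m‖) ^ 2 :=
        pow_le_pow_left₀ (by positivity) h3 2
      push_cast
      calc ((m.factorization p : ℝ) + 1) ^ 2 * (‖te q K (p * m)‖ ^ 2 / (p * m)) =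
          (((m.factorization p : ℝ) + 1) * ‖te q K (p * m)‖) ^ 2 / (p * m) := by ring
        _ ≤ (‖q p‖ * ‖te q K m‖) ^ 2 / (p * m) := div_le_div_of_nonneg_right h5 (by positivity)
        _ = _ := by
          field_simp
    · rw [if_neg (by omega), if_neg h]
      simp
  have h3 : ((r : ℝ) + 1) * ∑ m ∈ Finset.Icc 1 N, f (r + 1) m ≤ (∑ p ∈ P, ‖q p‖ ^ 2 / p) * ∑ m ∈ Finset.Icc 1 N, f r m := by
    rw [Finset.mul_sum]
    refine (Finset.sum_le_sum h1).trans ?_
    rw [Finset.sum_comm, Finset.sum_mul]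
    exact Finset.sum_le_sum h2
  rw [hf] at h3
  exact h3

/-- the mean square of the truncated exponential -/
theorem N2_te_le {q : ℕ → ℂ} {P : Finset ℕ} (hq : ∀ n, q n ≠ 0 → n.Prime ∧ n ∈ P) (hP : ∀ p ∈ P, p.Prime) (K N : ℕ) :
    N2 N (te q K) ≤ Real.exp (∑ p ∈ P, ‖q p‖ ^ 2 / p) := by
  classical
  have hq' : ∀ n, q n ≠ 0 → n.Prime := fun n h => (hq n h).1
  obtain ⟨V, hV⟩ : ∃ V : ℝ, V = ∑ p ∈ P, ‖q p‖ ^ 2 / (p : ℝ) := ⟨_, rfl⟩
  have hV0 : 0 ≤ V := by rw [hV]; exact Finset.sum_nonneg fun p _ => by positivity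
  obtain ⟨a, ha⟩ : ∃ a : ℕ → ℝ, a = fun r => ∑ m ∈ Finset.Icc 1 N, (if ArithmeticFunction.cardFactors m = r then ‖te q K m‖ ^ 2 / m else 0) := ⟨_, rfl⟩
  have h1 : ∀ r : ℕ, ((r : ℝ) + 1) * a (r + 1) ≤ V * a r := by
    intro r
    rw [ha, hV]
    exact layer hq hP r
  have h0 : a 0 ≤ 1 := by
    rw [ha]
    simp only
    have h2 : ∀ m ∈ Finset.Icc 1 N, (if ArithmeticFunction.cardFactors m = 0 then ‖te q K m‖ ^ 2 / (m : ℝ) else 0) ≤ if m = 1 then 1 else 0 := by
      intro m hm
      by_cases h : ArithmeticFunction.cardFactors m = 0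
      · rw [if_pos h]
        have hm1 : m = 1 := by
          rcases ArithmeticFunction.cardFactors_eq_zero_iff_eq_zero_or_one.1 h with h3 | h3
          · rw [Finset.mem_Icc] at hm; omega
          · exact h3
        rw [if_pos hm1, hm1, te_eq hq']
        have e : gq q 1 = 1 := by unfold gq; simp
        rw [if_pos (by simp), e]
        simp
      · rw [if_neg h]
        split_ifs <;> norm_num
    refine (Finset.sum_le_sum h2).trans ?_
    rw [Finset.sum_ite_eq']
    split_ifs <;> norm_num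
  have h2 : ∀ r : ℕ, a r ≤ V ^ r / r.factorial := by
    intro r
    induction r with
    | zero => simpa using h0
    | succ r ih =>
      have h3 := h1 r
      have h4 := mul_le_mul_of_nonneg_left ih hV0
      rw [Nat.factorial_succ, le_div_iff₀ (by positivity)]
      push_cast
      have hf : (0 : ℝ) < r.factorial := by positivity
      calc a (r + 1) * (((r : ℝ) + 1) * r.factorial) = (((r : ℝ) + 1) * a (r + 1)) * r.factorial := by ring
        _ ≤ (V * (V ^ r / r.factorial)) * r.factorial := mul_le_mul_of_nonneg_right (h3.trans h4) hf.le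
        _ = V ^ (r + 1) := by field_simp; ring
  have h3 : N2 N (te q K) = ∑ r ∈ Finset.range (K + 1), a r := by
    rw [ha]
    simp only
    rw [Finset.sum_comm]
    unfold N2
    refine Finset.sum_congr rfl fun m _ => ?_
    rw [Finset.sum_ite_eq]
    by_cases h : ArithmeticFunction.cardFactors m ∈ Finset.range (K + 1)
    · rw [if_pos h]
    · rw [if_neg h, te_eq hq', if_neg]
      · simp
      · rintro ⟨-, h4⟩
        exact h (Finset.mem_range.2 (by omega))
  rw [h3, ← hV]
  refine (Finset.sum_le_sum fun r _ => h2 r).trans ?_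
  exact Real.sum_le_exp_of_nonneg hV0 _

end

end Pool.Agent.U761.UX
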